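import Pool.Agent.Run7.h90.RW.Weil
import Pool.Agent.N647.FG.Thm

/-!
# Families of vectors of values of rational functions modulo a prime (helper90)
-/

set_option autoImplicit false

open Polynomial Finset Filter

namespace Pool.Agent.Run7.h90.RW

open Pool.Agent.N647.FG (Far fam main)
open Pool.Agent.W147.PS (ff ev_pow)

section
variable (p : ℕ) [Fact p.Prime]

/-- the numerator of a linear combination -/
noncomputable def numC {r : ℕ} (a b : Fin r → (ZMod p)[X]) (α : Fin r → ZMod p) : (ZMod p)[X] :=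
  ∑ j, C (α j) * a j * ∏ i ∈ univ.erase j, b i

lemma numC_natDegree {r : ℕ} (a b : Fin r → (ZMod p)[X]) (α : Fin r → ZMod p) (D : ℕ)
    (ha : ∀ j, (a j).natDegree ≤ D) (hb : ∀ j, (b j).natDegree ≤ D) :
    (numC p a b α).natDegree ≤ r * D := by
  unfold numC
  apply natDegree_sum_le_of_forall_le
  intro j _
  refine natDegree_mul_le.trans ?_
  have h1 : (C (α j) * a j).natDegree ≤ D := (natDegree_C_mul_le _ _).trans (ha j)
  have h2 : (∏ i ∈ univ.erase j, b i).natDegree ≤ (r - 1) * D := by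
    refine (natDegree_prod_le _ _).trans ?_
    refine (sum_le_card_nsmul _ _ D fun i _ => hb i).trans ?_
    rw [card_erase_of_mem (mem_univ j), card_univ, Fintype.card_fin, smul_eq_mul]
  have hr : 1 ≤ r := by
    have := j.2
    omega
  calc _ ≤ D + (r - 1) * D := Nat.add_le_add h1 h2
    _ = r * D := by
        obtain ⟨s, rfl⟩ := Nat.exists_eq_add_of_le hr
        rw [Nat.add_sub_cancel_left]
        ring

lemma prodB_natDegree {r : ℕ} (b : Fin r → (ZMod p)[X]) (D : ℕ)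
    (hb : ∀ j, (b j).natDegree ≤ D) : (∏ j, b j).natDegree ≤ r * D := by
  refine (natDegree_prod_le _ _).trans ?_
  refine (sum_le_card_nsmul _ _ D fun i _ => hb i).trans ?_
  rw [card_univ, Fintype.card_fin, smul_eq_mul]

lemma eval_numC {r : ℕ} (a b : Fin r → (ZMod p)[X]) (α : Fin r → ZMod p) (x : ZMod p)
    (hx : ∀ j, (b j).eval x ≠ 0) :
    (numC p a b α).eval x / (∏ j, b j).eval x = ∑ j, α j * ((a j).eval x / (b j).eval x) := by
  have h0 : ∏ j, (b j).eval x ≠ 0 := prod_ne_zero_iff.2 fun j _ => hx j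
  unfold numC
  rw [eval_finsetSum, eval_prod, sum_div]
  refine sum_congr rfl fun j _ => ?_
  rw [eval_mul, eval_mul, eval_C, eval_prod, div_eq_iff h0,
    ← mul_prod_erase univ (fun i => (b i).eval x) (mem_univ j)]
  have := hx j
  field_simp

/-- the residues at which no function has a pole -/
noncomputable def good {r : ℕ} (b : Fin r → (ZMod p)[X]) : Finset (ZMod p) :=
  univ.filter (fun x => ∀ j, (b j).eval x ≠ 0)

lemma mem_good {r : ℕ} (b : Fin r → (ZMod p)[X]) (x : ZMod p) :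
    x ∈ good p b ↔ ∀ j, (b j).eval x ≠ 0 := by
  unfold good
  rw [mem_filter]
  exact and_iff_right (mem_univ _)

lemma card_good {r : ℕ} (b : Fin r → (ZMod p)[X]) (hb0 : ∀ j, b j ≠ 0) (D : ℕ)
    (hb : ∀ j, (b j).natDegree ≤ D) : (p : ℝ) - r * D ≤ (good p b).card := by
  have hB0 : (∏ j, b j) ≠ 0 := prod_ne_zero_iff.2 fun j _ => hb0 j
  have h1 : (univ : Finset (ZMod p)) ⊆ good p b ∪ (∏ j, b j).roots.toFinset := by
    intro x _
    rw [mem_union, mem_good, Multiset.mem_toFinset, mem_roots hB0, IsRoot, eval_prod]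
    by_cases h : ∀ j, (b j).eval x ≠ 0
    · exact Or.inl h
    · right
      push Not at h
      obtain ⟨j, hj⟩ := h
      exact prod_eq_zero (mem_univ j) hj
  have h2 := (card_le_card h1).trans (card_union_le _ _)
  rw [card_univ, ZMod.card] at h2
  have h3 := ((Multiset.toFinset_card_le _).trans (card_roots' (∏ j, b j))).trans
    (prodB_natDegree p b D hb)
  have h4 : p ≤ (good p b).card + r * D := h2.trans (Nat.add_le_add_left h3 _)
  have h5 : (p : ℝ) ≤ (good p b).card + r * D := by exact_mod_cast h4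
  linarith

/-- the exponential sums of the family -/
lemma fam_sum {r : ℕ} (a b : Fin r → (ZMod p)[X]) (hb0 : ∀ j, b j ≠ 0) (D : ℕ)
    (ha : ∀ j, (a j).natDegree ≤ D) (hb : ∀ j, (b j).natDegree ≤ D) (hD : r * D < p)
    (hind : ∀ α : Fin r → ZMod p, α ≠ 0 → ∀ c : ZMod p, numC p a b α ≠ C c * ∏ j, b j)
    (α : Fin r → ZMod p) (hα : α ≠ 0) :
    ‖∑ x ∈ good p b, (ZMod.stdAddChar (∑ j, α j * ((a j).eval x / (b j).eval x)) : ℂ)‖ ≤
      2 * (r * D : ℕ) * Real.sqrt p := by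
  have hB0 : (∏ j, b j) ≠ 0 := prod_ne_zero_iff.2 fun j _ => hb0 j
  have h1 := weil_rat p (numC p a b α) (∏ j, b j) hB0 (r * D) (numC_natDegree p a b α D ha hb)
    (prodB_natDegree p b D hb) hD (hind α hα) (ZMod.isPrimitive_stdAddChar p)
  have h2 : ∑ x ∈ good p b, (ZMod.stdAddChar (∑ j, α j * ((a j).eval x / (b j).eval x)) : ℂ) =
      ∑ x : ZMod p, if (∏ j, b j).eval x = 0 then (0 : ℂ) else
        ZMod.stdAddChar ((numC p a b α).eval x / (∏ j, b j).eval x) := by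
    unfold good
    rw [sum_filter]
    refine sum_congr rfl fun x _ => ?_
    by_cases hx : ∀ j, (b j).eval x ≠ 0
    · have h0 : (∏ j, b j).eval x ≠ 0 := by
        rw [eval_prod]
        exact prod_ne_zero_iff.2 fun j _ => hx j
      rw [if_pos hx, if_neg h0, eval_numC p a b α x hx]
    · rw [if_neg hx, if_pos]
      push Not at hx
      obtain ⟨j, hj⟩ := hx
      rw [eval_prod]
      exact prod_eq_zero (mem_univ j) hj
  rw [h2]
  exact h1

end

/-- **Record gaps at the values of rational functions modulo primes** -/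
theorem fam_main (r : ℕ) (hr : 1 ≤ r) (δ : ℝ) (hδ : 0 < δ) (hδ1 : δ ≤ 1) :
    ∃ κ : ℝ, 0 < κ ∧ ∃ p₀ : ℕ, ∀ p : ℕ, p₀ ≤ p → p.Prime →
    ∀ D : ℕ, (D : ℝ) ≤ (p : ℝ) ^ (δ / 4) →
    ∀ a b : Fin r → (ZMod p)[X], (∀ j, (a j).natDegree ≤ D) → (∀ j, (b j).natDegree ≤ D) →
    (∀ j, b j ≠ 0) →
    (∀ α : Fin r → ZMod p, α ≠ 0 → ∀ c : ZMod p,
      ∑ j, C (α j) * a j * ∏ i ∈ univ.erase j, b i ≠ C c * ∏ j, b j) →
    ∀ (M : Fin r → ℤ) (L : Fin r → ℕ), (∀ j, (p : ℝ) ^ δ ≤ L j) → (∀ j, L j ≤ p) →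
      (p : ℝ) ^ ((r : ℝ) - 1 / 2 + δ) ≤ ∏ j, (L j : ℝ) →
    (p : ℝ) ^ (1 - δ) * ∏ j, ((L j : ℝ) / p) ≤
      ({x : ZMod p | ∀ j, (b j).eval x ≠ 0 ∧ ∃ z : ℤ, M j < z ∧ z ≤ M j + L j ∧
        (z : ZMod p) * (b j).eval x = (a j).eval x ∧
        ∀ m : ℤ, |(m : ℝ) - z| ≤ κ * ff p →
          ∃ l : ℕ, l.Prime ∧ (l : ℝ) ≤ (p : ℝ) ^ δ ∧ (l : ℤ) ∣ m}.ncard : ℝ) := by
  classical
  obtain ⟨κ, hκ, p₁, hmain⟩ := main r hr (1 / 2 - δ / 2) (δ / 2) (by linarith) (by linarith)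
  have tc : Tendsto (fun q : ℕ => (q : ℝ)) atTop atTop := tendsto_natCast_atTop_atTop
  have hev := ((tc.eventually (ev_pow (δ / 4) (δ / 2) (4 * r) (by linarith))).and
    (tc.eventually (ev_pow (1 - δ) (1 - δ / 2) 2 (by linarith)))).and
    ((eventually_ge_atTop p₁).and (tc.eventually (ev_pow (δ / 4) 1 (2 * r + 1) (by linarith))))
  obtain ⟨p₀, hp₀⟩ := eventually_atTop.mp hev
  refine ⟨κ, hκ, p₀, ?_⟩
  intro p hpp hp D hDp a b ha hb hb0 hind M L hLδ hLp hvol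
  have : Fact p.Prime := ⟨hp⟩
  obtain ⟨⟨g1, g2⟩, g3, g4⟩ := hp₀ p hpp
  have hp1 : (1 : ℝ) < p := by exact_mod_cast hp.one_lt
  have hp0 : (0 : ℝ) < p := by linarith
  have hmono : ∀ x y : ℝ, x ≤ y → (p : ℝ) ^ x ≤ (p : ℝ) ^ y := fun x y h =>
    Real.rpow_le_rpow_of_exponent_le hp1.le h
  have hrD : 4 * ((r : ℝ) * D) ≤ (p : ℝ) ^ (δ / 2) := by
    refine le_trans ?_ g1
    rw [← mul_assoc]
    gcongr
  have g4R : 2 * ((r : ℝ) * D) + 1 ≤ p := by
    rw [Real.rpow_one] at g4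
    have h1 : (1 : ℝ) ≤ (p : ℝ) ^ (δ / 4) := Real.one_le_rpow hp1.le (by positivity)
    have h2 : (r : ℝ) * D ≤ r * (p : ℝ) ^ (δ / 4) := by gcongr
    nlinarith
  have g4N : r * D < p := by
    have h1 : (0 : ℝ) ≤ (r : ℝ) * D := by positivity
    have h2 : (r : ℝ) * D < p := by linarith
    exact_mod_cast h2
  have hcard := card_good p b hb0 D hb
  have hcard2 : (p : ℝ) / 2 ≤ (good p b).card := by linarith
  have hne : (good p b).Nonempty := by
    rw [← card_pos]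
    have : (0 : ℝ) < (good p b).card := by linarith
    exact_mod_cast this
  have hsum : ∀ α : Fin r → ZMod p, α ≠ 0 →
      ‖∑ x ∈ good p b, (ZMod.stdAddChar (∑ j, α j * ((a j).eval x / (b j).eval x)) : ℂ)‖ ≤
        (good p b).card * (p : ℝ) ^ (-(1 / 2 - δ / 2)) := by
    intro α hα
    have h1 := fam_sum p a b hb0 D ha hb g4N hind α hα
    refine h1.trans ?_
    push_cast
    have h2 : Real.sqrt p = (p : ℝ) ^ (1 / 2 : ℝ) := Real.sqrt_eq_rpow _
    rw [h2]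
    calc 2 * ((r : ℝ) * D) * (p : ℝ) ^ (1 / 2 : ℝ) = (4 * ((r : ℝ) * D)) / 2 * (p : ℝ) ^ (1 / 2 : ℝ) := by ring
      _ ≤ (p : ℝ) ^ (δ / 2) / 2 * (p : ℝ) ^ (1 / 2 : ℝ) := by gcongr
      _ = (p : ℝ) / 2 * (p : ℝ) ^ (-(1 / 2 - δ / 2)) := by
          have h3 : (p : ℝ) ^ (δ / 2) * (p : ℝ) ^ (1 / 2 : ℝ) = p * (p : ℝ) ^ (-(1 / 2 - δ / 2)) := by
            rw [← Real.rpow_add hp0]
            nth_rewrite 2 [← Real.rpow_one (p : ℝ)]
            rw [← Real.rpow_add hp0]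
            congr 1
            ring
          linear_combination h3 / 2
      _ ≤ _ := by gcongr
  have hm := hmain p g3 (ZMod p) (good p b) (fun x j => (a j).eval x / (b j).eval x) hne hsum M L hLp
    (fun j => (hmono _ _ (by linarith)).trans (hLδ j))
    ((hmono _ _ (by linarith)).trans hvol)
  set s := (fam (good p b) (fun x j => (a j).eval x / (b j).eval x) M L).filter
    (fun z => ∀ j, Far (z.2 j) (κ * ff p) ((p : ℝ) ^ (δ / 2))) with hs
  have hPi : 0 ≤ ∏ j, ((L j : ℝ) / p) := prod_nonneg fun j _ => by positivity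
  have hlow : (p : ℝ) ^ (1 - δ) * ∏ j, ((L j : ℝ) / p) ≤
      (p : ℝ) ^ (-(δ / 2)) * ((good p b).card * ∏ j, ((L j : ℝ) / p)) := by
    rw [← mul_assoc]
    apply mul_le_mul_of_nonneg_right _ hPi
    calc (p : ℝ) ^ (1 - δ) ≤ (p : ℝ) ^ (1 - δ / 2) / 2 := by linarith
      _ = (p : ℝ) ^ (-(δ / 2)) * (p / 2) := by
          have : (p : ℝ) ^ (1 - δ / 2) = p * (p : ℝ) ^ (-(δ / 2)) := by
            nth_rewrite 2 [← Real.rpow_one (p : ℝ)]
            rw [← Real.rpow_add hp0]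
            congr 1
          rw [this]
          ring
      _ ≤ _ := by gcongr
  refine hlow.trans (hm.trans ?_)
  have hmem : ∀ w ∈ s, w.1 ∈ good p b ∧ (∀ j, M j < w.2 j ∧ w.2 j ≤ M j + L j ∧
      ((w.2 j : ℤ) : ZMod p) = (a j).eval w.1 / (b j).eval w.1) ∧
      ∀ j, Far (w.2 j) (κ * ff p) ((p : ℝ) ^ (δ / 2)) := by
    intro w hw
    rw [hs, mem_filter] at hw
    obtain ⟨hw1, hw2⟩ := hw
    unfold fam at hw1
    rw [mem_sigma, Fintype.mem_piFinset] at hw1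
    refine ⟨hw1.1, fun j => ?_, hw2⟩
    have := hw1.2 j
    rw [mem_filter, mem_Ioc] at this
    exact ⟨this.1.1, this.1.2, this.2⟩
  have hfin : ({x : ZMod p | ∀ j, (b j).eval x ≠ 0 ∧ ∃ z : ℤ, M j < z ∧ z ≤ M j + L j ∧
        (z : ZMod p) * (b j).eval x = (a j).eval x ∧
        ∀ m : ℤ, |(m : ℝ) - z| ≤ κ * ff p →
          ∃ l : ℕ, l.Prime ∧ (l : ℝ) ≤ (p : ℝ) ^ δ ∧ (l : ℤ) ∣ m}).Finite := Set.toFinite _
  have hinj : Set.InjOn (fun w : (Σ _ : ZMod p, (Fin r → ℤ)) => w.1) (s : Set _) := by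
    intro w hw w' hw' h
    obtain ⟨h1, h2, -⟩ := hmem w hw
    obtain ⟨h1', h2', -⟩ := hmem w' hw'
    obtain ⟨x, z⟩ := w
    obtain ⟨x', z'⟩ := w'
    simp only at h h2 h2'
    subst h
    congr 1
    funext j
    obtain ⟨e1, e2, e3⟩ := h2 j
    obtain ⟨e1', e2', e3'⟩ := h2' j
    have e4 : ((z j - z' j : ℤ) : ZMod p) = 0 := by
      push_cast
      rw [e3, e3', sub_self]
    rw [ZMod.intCast_zmod_eq_zero_iff_dvd] at e4
    have hLpj := hLp j
    have e5 : |z j - z' j| < (p : ℤ) := by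
      rw [abs_lt]
      constructor <;> omega
    have := Int.eq_zero_of_abs_lt_dvd e4 e5
    omega
  have h1 : s.card = (s.image (fun w : (Σ _ : ZMod p, (Fin r → ℤ)) => w.1)).card :=
    (card_image_of_injOn hinj).symm
  rw [h1]
  have h2 : ((s.image (fun w : (Σ _ : ZMod p, (Fin r → ℤ)) => w.1) : Finset (ZMod p)) : Set (ZMod p)) ⊆
      {x : ZMod p | ∀ j, (b j).eval x ≠ 0 ∧ ∃ z : ℤ, M j < z ∧ z ≤ M j + L j ∧
        (z : ZMod p) * (b j).eval x = (a j).eval x ∧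
        ∀ m : ℤ, |(m : ℝ) - z| ≤ κ * ff p →
          ∃ l : ℕ, l.Prime ∧ (l : ℝ) ≤ (p : ℝ) ^ δ ∧ (l : ℤ) ∣ m} := by
    intro x hx
    rw [mem_coe, mem_image] at hx
    obtain ⟨w, hw, rfl⟩ := hx
    obtain ⟨e1, e2, e3⟩ := hmem w hw
    intro j
    refine ⟨(mem_good p b w.1).1 e1 j, w.2 j, (e2 j).1, (e2 j).2.1, ?_, ?_⟩
    · rw [(e2 j).2.2, div_mul_cancel₀ _ ((mem_good p b w.1).1 e1 j)]
    intro m hmz
    obtain ⟨l, hl1, hl2, hl3⟩ := e3 j m hmz
    exact ⟨l, hl1, hl2.trans (hmono _ _ (by linarith)), hl3⟩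
  have h3 := Set.ncard_le_ncard h2 hfin
  rw [Set.ncard_coe_finset] at h3
  exact_mod_cast h3

end Pool.Agent.Run7.h90.RW
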