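import Mathlib

/-!
# The sum of the values of a rational function at the roots of a polynomial (helper90)

`T num den h` is the sum of `num / den` over the roots of the monic polynomial `h`, defined through the
resultant of `h` and `den - ε num` over the dual numbers.
-/

set_option autoImplicit false

namespace Pool.Agent.Run7.h90.RW

open Polynomial TrivSqZeroExt

section Basic

variable {F : Type*} [Field F]

/-- `den - ε num` over the dual numbers -/
noncomputable def GG (num den : F[X]) : (DualNumber F)[X] :=
  den.map (inlHom F F) - C (inr (1 : F)) * num.map (inlHom F F)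

/-- the degree bound -/
noncomputable def dg (num den : F[X]) : ℕ := max num.natDegree den.natDegree

lemma GG_natDegree (num den : F[X]) : (GG num den).natDegree ≤ dg num den := by
  unfold GG dg
  refine (natDegree_sub_le _ _).trans ?_
  rw [max_comm]
  refine max_le_max ?_ (natDegree_map_le)
  exact (natDegree_C_mul_le _ _).trans natDegree_map_le

/-- the resultant -/
noncomputable def WW (num den h : F[X]) : DualNumber F :=
  resultant (h.map (inlHom F F)) (GG num den) h.natDegree (dg num den)

/-- the sum of `num / den` over the roots of `h` -/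
noncomputable def T (num den h : F[X]) : F := -((WW num den h).snd / (WW num den h).fst)

lemma inl_inj : Function.Injective (inlHom F F) := fun a b h => by
  have := congrArg fst h
  simpa using this

lemma natDegree_inl (h : F[X]) : (h.map (inlHom F F)).natDegree = h.natDegree :=
  natDegree_map_eq_of_injective inl_inj h

lemma WW_mul (num den : F[X]) {g h : F[X]} (hg : g ≠ 0) (hh : h ≠ 0) :
    WW num den (g * h) = WW num den g * WW num den h := by
  unfold WW
  have := resultant_mul_left (g.map (inlHom F F)) (h.map (inlHom F F)) (GG num den) (dg num den)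
    (GG_natDegree num den)
  rw [natDegree_inl, natDegree_inl] at this
  rw [Polynomial.map_mul, natDegree_mul hg hh, this]

lemma WW_fst (num den h : F[X]) :
    (WW num den h).fst = resultant h den h.natDegree (dg num den) := by
  have h1 := resultant_map_map (h.map (inlHom F F)) (GG num den) h.natDegree (dg num den)
    (fstHom F F F).toRingHom
  have h2 : (fstHom F F F).toRingHom (WW num den h) = (WW num den h).fst := rfl
  rw [← h2]
  unfold WW
  rw [← h1]
  congr 1
  · rw [Polynomial.map_map]
    have : (fstHom F F F).toRingHom.comp (inlHom F F) = RingHom.id F := by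
      ext x
      simp
    rw [this, Polynomial.map_id]
  · unfold GG
    rw [Polynomial.map_sub, Polynomial.map_mul, Polynomial.map_map, Polynomial.map_map, map_C]
    have : (fstHom F F F).toRingHom.comp (inlHom F F) = RingHom.id F := by
      ext x
      simp
    rw [this, Polynomial.map_id]
    have h3 : (fstHom F F F).toRingHom (inr (1 : F)) = 0 := by simp
    rw [h3, C_0, zero_mul, sub_zero]

lemma WW_fst_ne (num den : F[X]) {h : F[X]} (hh : h.Monic) :
    (WW num den h).fst ≠ 0 ↔ IsCoprime h den := by
  rw [WW_fst]
  have hle : den.natDegree ≤ dg num den := le_max_right _ _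
  obtain ⟨k, hk⟩ := Nat.exists_eq_add_of_le hle
  rw [hk, resultant_add_right_deg _ _ _ _ _ le_rfl, hh.coeff_natDegree, one_pow, one_mul]
  have h1 := isUnit_resultant_iff_isCoprime (f := h) (g := den) hh
  rw [isUnit_iff_ne_zero] at h1
  exact h1

lemma T_mul (num den : F[X]) {g h : F[X]} (hg : g.Monic) (hh : h.Monic)
    (hgc : IsCoprime g den) (hhc : IsCoprime h den) :
    T num den (g * h) = T num den g + T num den h := by
  have h1 := (WW_fst_ne num den hg).2 hgc
  have h2 := (WW_fst_ne num den hh).2 hhc
  unfold T
  rw [WW_mul num den hg.ne_zero hh.ne_zero, TrivSqZeroExt.fst_mul, DualNumber.snd_mul]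
  field_simp
  ring

lemma T_one (num den : F[X]) : T num den 1 = 0 := by
  have h1 := T_mul num den (monic_one (R := F)) (monic_one (R := F)) isCoprime_one_left
    isCoprime_one_left
  rw [one_mul] at h1
  exact left_eq_add.1 h1

lemma T_lin (num den : F[X]) (α : F) : T num den (X - C α) = num.eval α / den.eval α := by
  have h1 : WW num den (X - C α) = inl (den.eval α) - inr (1 : F) * inl (num.eval α) := by
    unfold WW
    rw [natDegree_X_sub_C, Polynomial.map_sub, map_X, map_C,
      resultant_X_sub_C_left _ _ _ (GG_natDegree num den)]
    unfold GG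
    rw [eval_sub, eval_mul, eval_C, eval_map, eval_map]
    have : ∀ q : F[X], eval₂ (inlHom F F) ((inlHom F F) α) q = inl (q.eval α) := by
      intro q
      rw [eval₂_at_apply]
      rfl
    rw [this, this]
  unfold T
  rw [h1]
  simp [neg_div]

end Basic

section Map

variable {F K : Type*} [Field F] [Field K] (φ : F →+* K)

/-- base change of the dual numbers -/
noncomputable def dm : DualNumber F →+* DualNumber K where
  toFun x := inl (φ x.fst) + inr (φ x.snd)
  map_one' := by ext <;> simp
  map_zero' := by ext <;> simp
  map_add' x y := by ext <;> simp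
  map_mul' x y := by
    ext
    · simp
    · simp [mul_comm]

lemma dm_inl : (dm φ).comp (inlHom F F) = (inlHom K K).comp φ := by
  ext x <;> simp [dm]

lemma dg_map (num den : F[X]) : dg (num.map φ) (den.map φ) = dg num den := by
  unfold dg
  rw [natDegree_map, natDegree_map]

lemma GG_map (num den : F[X]) : GG (num.map φ) (den.map φ) = (GG num den).map (dm φ) := by
  unfold GG
  rw [Polynomial.map_sub, Polynomial.map_mul, map_C, Polynomial.map_map, Polynomial.map_map,
    Polynomial.map_map, Polynomial.map_map, dm_inl]
  congr 2
  simp [dm]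

lemma WW_map (num den h : F[X]) :
    WW (num.map φ) (den.map φ) (h.map φ) = dm φ (WW num den h) := by
  unfold WW
  rw [GG_map, dg_map, natDegree_map, Polynomial.map_map, ← dm_inl, ← Polynomial.map_map,
    resultant_map_map]

lemma T_map (num den h : F[X]) : T (num.map φ) (den.map φ) (h.map φ) = φ (T num den h) := by
  unfold T
  rw [WW_map]
  simp [dm, map_neg, map_div₀]

lemma T_prod (num den : F[X]) (s : Multiset F) (hs : ∀ a ∈ s, den.eval a ≠ 0) :
    T num den ((s.map (fun α => X - C α)).prod) =
      (s.map (fun α => num.eval α / den.eval α)).sum ∧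
    IsCoprime ((s.map (fun α => X - C α)).prod) den := by
  induction s using Multiset.induction_on with
  | empty => simp [T_one, isCoprime_one_left]
  | cons a s ih =>
    obtain ⟨ih1, ih2⟩ := ih (fun b hb => hs b (Multiset.mem_cons_of_mem hb))
    have ha : IsCoprime (X - C a) den := by
      rw [(irreducible_X_sub_C a).coprime_iff_not_dvd, dvd_iff_isRoot]
      exact hs a (Multiset.mem_cons_self a s)
    rw [Multiset.map_cons, Multiset.prod_cons, Multiset.map_cons, Multiset.sum_cons,
      T_mul _ _ (monic_X_sub_C a) (monic_multisetProd_X_sub_C s) ha ih2, ih1, T_lin]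
    exact ⟨rfl, ha.mul_left ih2⟩

/-- **`T num den h` is the sum of `num / den` over the roots of `h`** -/
theorem T_aroots [Algebra F K] [IsAlgClosed K] (num den : F[X]) {h : F[X]} (hh : h.Monic)
    (hc : IsCoprime h den) :
    algebraMap F K (T num den h) =
      ((h.aroots K).map (fun z => aeval z num / aeval z den)).sum := by
  have h1 : (h.map (algebraMap F K)).Splits := IsAlgClosed.splits _
  have h2 : h.map (algebraMap F K) = ((h.aroots K).map (fun α => X - C α)).prod :=
    h1.eq_prod_roots_of_monic (hh.map _)
  rw [← T_map (algebraMap F K) num den h]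
  conv_lhs => rw [h2]
  rw [(T_prod _ _ _ ?_).1]
  · simp only [eval_map_algebraMap]
  · intro a ha h0
    rw [eval_map_algebraMap] at h0
    rw [mem_aroots] at ha
    obtain ⟨u, v, huv⟩ := hc
    have := congrArg (aeval a) huv
    rw [map_add, map_mul, map_mul, ha.2, h0, mul_zero, mul_zero, add_zero, map_one] at this
    exact zero_ne_one this

end Map

section Mod

variable {F : Type*} [Field F]

/-- `T num den h` depends only on `h` modulo `den ^ 2` -/
theorem T_mod (num den : F[X]) (hd : den.Monic) (hn : num.degree < den.degree) {h₁ h₂ : F[X]}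
    (hdvd : den ^ 2 ∣ h₁ - h₂) : T num den h₁ = T num den h₂ := by
  obtain ⟨Q, hQ⟩ := hdvd
  have hdg : dg num den = den.natDegree := max_eq_right (natDegree_le_natDegree hn.le)
  set N := den.natDegree with hN
  have hG1 : (GG num den).coeff N = 1 := by
    unfold GG
    have h0 : num.coeff N = 0 := coeff_eq_zero_of_degree_lt (by rwa [hN, ← degree_eq_natDegree hd.ne_zero])
    rw [coeff_sub, coeff_C_mul, coeff_map, coeff_map, h0, map_zero,
      mul_zero, sub_zero, hN, hd.coeff_natDegree, map_one]
  have hGd : (GG num den).natDegree ≤ N := by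
    rw [← hdg]
    exact GG_natDegree num den
  set P : (DualNumber F)[X] := (den.map (inlHom F F) + C (inr (1 : F)) * num.map (inlHom F F)) *
    Q.map (inlHom F F) with hP
  have hsq : GG num den * (den.map (inlHom F F) + C (inr (1 : F)) * num.map (inlHom F F)) =
      (den ^ 2).map (inlHom F F) := by
    unfold GG
    have h1 : (C (inr (1 : F)) : (DualNumber F)[X]) * C (inr (1 : F)) = 0 := by
      rw [← C_mul]
      simp
    rw [Polynomial.map_pow]
    linear_combination -(num.map (inlHom F F)) ^ 2 * h1
  have hsum : h₁.map (inlHom F F) = h₂.map (inlHom F F) + GG num den * P := by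
    rw [hP, ← mul_assoc, hsq, ← Polynomial.map_mul, ← Polynomial.map_add, ← hQ]
    congr 1
    ring
  obtain ⟨M, hM1, hM2, hM3⟩ : ∃ M, h₁.natDegree ≤ M ∧ h₂.natDegree ≤ M ∧ P.natDegree + N ≤ M :=
    ⟨h₁.natDegree + h₂.natDegree + (P.natDegree + N), by omega, by omega, by omega⟩
  have hres : resultant (h₁.map (inlHom F F)) (GG num den) M N =
      resultant (h₂.map (inlHom F F)) (GG num den) M N := by
    rw [hsum]
    exact resultant_add_mul_left _ _ _ _ _ hM3 hGd
  have key : ∀ h : F[X], h.natDegree ≤ M →
      -((resultant (h.map (inlHom F F)) (GG num den) M N).snd /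
        (resultant (h.map (inlHom F F)) (GG num den) M N).fst) = T num den h := by
    intro h hh
    obtain ⟨k, hk⟩ := Nat.exists_eq_add_of_le hh
    have e1 := resultant_add_left_deg (h.map (inlHom F F)) (GG num den) h.natDegree N k
      (by rw [natDegree_inl])
    rw [hG1, one_pow, mul_one] at e1
    have e2 : resultant (h.map (inlHom F F)) (GG num den) h.natDegree N = WW num den h := by
      unfold WW
      rw [hdg]
    rw [hk, e1, e2]
    unfold T
    rcases neg_one_pow_eq_or (DualNumber F) (N * k) with h0 | h0
    · rw [h0, one_mul]
    · rw [h0]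
      simp [neg_div_neg_eq]
  rw [← key h₁ hM1, ← key h₂ hM2, hres]

end Mod

end Pool.Agent.Run7.h90.RW
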