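import Pool.Agent.H498R2.KlField
import Pool.Agent.Y951.WP.Lg
import Pool.Agent.Run7.h90.RW.Tr

/-!
# The `L`-function of `ψ (P x + num x / den x)` (helper90)
-/

set_option autoImplicit false
set_option linter.all false

namespace Pool.Agent.Run7.h90.RW

open Polynomial Finset IntermediateField
open Pool.Agent.H341R2.Sharp Pool.Agent.H498R2.Kl
open Pool.Agent.Y951.WP (rv lg rv_inv rv_const)

section Shift

variable {F : Type*} [Field F]

/-- the effect of changing the coefficients from `n - k` on -/
theorem T_shiftG (f : F[X]) (hk : 1 ≤ f.natDegree) {h u : F[X]} (hh : h.Monic)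
    (hn : f.natDegree ≤ h.natDegree) (hu : u.natDegree ≤ h.natDegree - f.natDegree) :
    (h + u).Monic ∧ (h + u).natDegree = h.natDegree ∧
    Pool.Agent.Y951.WP.T f (h + u) =
      Pool.Agent.Y951.WP.T f h - f.leadingCoeff * (f.natDegree : F) *
        u.coeff (h.natDegree - f.natDegree) := by
  set k := f.natDegree with hkdef
  set n := h.natDegree with hndef
  set s := u.coeff (n - k) with hs
  have hdeg : u.degree < h.degree := by
    refine degree_le_natDegree.trans_lt ?_
    rw [degree_eq_natDegree hh.ne_zero, ← hndef]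
    exact_mod_cast (by omega : u.natDegree < n)
  have hmon : (h + u).Monic := hh.add_of_left hdeg
  have hnd : (h + u).natDegree = n := by
    rw [natDegree_add_eq_left_of_degree_lt hdeg]
  refine ⟨hmon, hnd, ?_⟩
  set h' := h + u with hh'
  obtain ⟨v, hv⟩ : (PowerSeries.X : PowerSeries F) ^ k ∣ rv h' - rv h := by
    rw [PowerSeries.X_pow_dvd_iff]
    intro m hm
    unfold rv
    rw [map_sub, Polynomial.coeff_coe, Polynomial.coeff_coe, coeff_reverse, coeff_reverse, hnd,
      ← hndef, hh', coeff_add, revAt_le (by omega)]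
    rw [coeff_eq_zero_of_natDegree_lt (p := u) (by omega)]
    ring
  have hrv : rv h' = rv h + PowerSeries.X ^ k * v := by
    rw [← hv]
    ring
  have hv0 : PowerSeries.constantCoeff v = s := by
    have h1 := congrArg (PowerSeries.coeff k) hv
    rw [PowerSeries.coeff_X_pow_mul', if_pos le_rfl, Nat.sub_self,
      PowerSeries.coeff_zero_eq_constantCoeff] at h1
    rw [← h1]
    unfold rv
    rw [map_sub, Polynomial.coeff_coe, Polynomial.coeff_coe, coeff_reverse, coeff_reverse, hnd,
      ← hndef, hh', coeff_add, revAt_le (by omega)]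
    ring
  have hd : lg h' - lg h = PowerSeries.X ^ (k - 1) *
      (((k : PowerSeries F) * v * rv h + PowerSeries.X * (PowerSeries.derivative F v * rv h) -
        PowerSeries.X * (v * PowerSeries.derivative F (rv h))) *
        ((rv h)⁻¹ * (rv h')⁻¹)) := by
    have h1 := rv_inv hh
    have h2 := rv_inv hmon
    have h3 : PowerSeries.derivative F (rv h') = PowerSeries.derivative F (rv h) +
        ((k : PowerSeries F) * PowerSeries.X ^ (k - 1) * v +
          PowerSeries.X ^ k * PowerSeries.derivative F v) := by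
      rw [hrv, map_add]
      congr 1
      rw [Derivation.leibniz, smul_eq_mul, smul_eq_mul, Derivation.leibniz_pow,
        PowerSeries.derivative_X, smul_eq_mul, mul_one, nsmul_eq_mul]
      ring
    have h5 : PowerSeries.X ^ k = PowerSeries.X ^ (k - 1) * (PowerSeries.X : PowerSeries F) := by
      rw [← pow_succ]
      congr 1
      omega
    unfold lg
    have h6 : PowerSeries.derivative F (rv h') * (rv h')⁻¹ - PowerSeries.derivative F (rv h) * (rv h)⁻¹ =
        (PowerSeries.derivative F (rv h') * rv h -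
          PowerSeries.derivative F (rv h) * rv h') * ((rv h)⁻¹ * (rv h')⁻¹) := by
      calc _ = PowerSeries.derivative F (rv h') *
            (rv h')⁻¹ * (rv h * (rv h)⁻¹) - PowerSeries.derivative F (rv h) * (rv h)⁻¹ *
            (rv h' * (rv h')⁻¹) := by rw [h1, h2, mul_one, mul_one]
        _ = _ := by ring
    rw [h6, h3, hrv, h5]
    ring
  have hcoef : ∀ j < k, PowerSeries.coeff j (lg h') = PowerSeries.coeff j (lg h) +
      (if j = k - 1 then s * k else 0) := by
    intro j hj
    have h1 : lg h' = lg h + (lg h' - lg h) := by ring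
    rw [h1, map_add, hd, PowerSeries.coeff_X_pow_mul']
    congr 1
    by_cases h2 : j = k - 1
    · rw [if_pos (by omega), if_pos h2, h2, Nat.sub_self, PowerSeries.coeff_zero_eq_constantCoeff]
      simp only [map_mul, map_sub, map_add, PowerSeries.constantCoeff_X,
        PowerSeries.constantCoeff_inv, rv_const hh, rv_const hmon, hv0, map_natCast]
      ring
    · rw [if_neg (by omega), if_neg h2]
  unfold Pool.Agent.Y951.WP.T
  rw [hnd, ← hndef, ← hkdef, sum_congr rfl fun j hj => by rw [hcoef j (mem_range.1 hj)]]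
  simp only [mul_add, sum_add_distrib, mul_ite, mul_zero]
  rw [sum_ite_eq', if_pos (mem_range.2 (by omega))]
  have h1 : k - 1 + 1 = f.natDegree := by omega
  rw [h1]
  unfold leadingCoeff
  ring

end Shift

section Trace

variable {F E : Type*} [Field F] [Field E] [Algebra F E] [FiniteDimensional F E]
  [Algebra.IsSeparable F E]

/-- the sum of `P + num / den` at the roots of `h` -/
noncomputable def T2 {F : Type*} [Field F] (P num den h : F[X]) : F :=
  Pool.Agent.Y951.WP.T P h + T num den h

theorem coprime_minpoly (x : E) (den : F[X]) :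
    IsCoprime (minpoly F x) den ↔ aeval x den ≠ 0 := by
  have hx : IsIntegral F x := Algebra.IsIntegral.isIntegral x
  rw [(minpoly.irreducible hx).coprime_iff_not_dvd]
  exact not_congr (minpoly.dvd_iff)

theorem trace_genR (x : E) (P num den : F[X]) (hx0 : aeval x den ≠ 0) :
    Algebra.trace F F⟮x⟯ (aeval (AdjoinSimple.gen F x) P + aeval (AdjoinSimple.gen F x) num /
      aeval (AdjoinSimple.gen F x) den) = T2 P num den (minpoly F x) := by
  classical
  let Ω := AlgebraicClosure F
  have hx : IsIntegral F x := Algebra.IsIntegral.isIntegral x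
  have : Algebra.IsSeparable F F⟮x⟯ := Algebra.isSeparable_tower_bot_of_isSeparable F F⟮x⟯ E
  apply (algebraMap F Ω).injective
  unfold T2
  rw [trace_eq_sum_embeddings (E := Ω), map_add, Pool.Agent.Y951.WP.T_aroots P (minpoly.monic hx),
    T_aroots (K := Ω) num den (minpoly.monic hx) ((coprime_minpoly x den).2 hx0),
    ← Multiset.sum_map_add]
  rw [← sum_emb x (fun z => aeval z P + aeval z num / aeval z den)]
  refine sum_congr rfl fun σ _ => ?_
  rw [map_add, map_div₀, aeval_algHom_apply, aeval_algHom_apply, aeval_algHom_apply]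

theorem trace_R (x : E) (P num den : F[X]) (hx0 : aeval x den ≠ 0) :
    Algebra.trace F E (aeval x P + aeval x num / aeval x den) =
      (Module.finrank F E / (minpoly F x).natDegree) • T2 P num den (minpoly F x) := by
  have h1 : aeval x P + aeval x num / aeval x den =
      algebraMap F⟮x⟯ E (aeval (AdjoinSimple.gen F x) P + aeval (AdjoinSimple.gen F x) num /
        aeval (AdjoinSimple.gen F x) den) := by
    rw [map_add, map_div₀, ← aeval_algebraMap_apply, ← aeval_algebraMap_apply,
      ← aeval_algebraMap_apply, AdjoinSimple.algebraMap_gen]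
  rw [h1, ← Algebra.trace_trace (S := F⟮x⟯), Algebra.trace_algebraMap, map_nsmul,
    trace_genR x P num den hx0, (finrank_div x).1]

end Trace

section Lam

variable {F : Type*} [Field F] [Fintype F] [DecidableEq F]

open Classical in
/-- the multiplicative function on monic polynomials attached to the sum -/
noncomputable def lamR (ψ : AddChar F ℂ) (P num den : F[X]) (h : F[X]) : ℂ :=
  if IsCoprime h den then ψ (T2 P num den h) else 0

theorem lamR_mult (ψ : AddChar F ℂ) (P num den : F[X]) : Mult (lamR ψ P num den) := by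
  constructor
  · unfold lamR
    rw [if_pos isCoprime_one_left]
    unfold T2
    rw [T_one, Pool.Agent.Y951.WP.T_one]
    simp
  · intro g h hg hh
    unfold lamR
    by_cases h1 : IsCoprime g den
    · by_cases h2 : IsCoprime h den
      · rw [if_pos (h1.mul_left h2), if_pos h1, if_pos h2, ← AddChar.map_add_eq_mul]
        congr 1
        unfold T2
        rw [T_mul num den hg hh h1 h2, Pool.Agent.Y951.WP.T_mul P hg hh]
        ring
      · rw [if_neg h2, mul_zero, if_neg]
        intro h3
        exact h2 h3.of_mul_left_right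
    · rw [if_neg h1, zero_mul, if_neg]
      intro h3
      exact h1 h3.of_mul_left_left

theorem TR_eq_sum {E : Type*} [Field E] [Fintype E] [DecidableEq E] [Algebra F E]
    (ψ : AddChar F ℂ) (P num den : F[X]) :
    TG (lamR ψ P num den) (Module.finrank F E) = ∑ x : E, if aeval x den = 0 then 0 else
      ψ (Algebra.trace F E (aeval x P + aeval x num / aeval x den)) := by
  classical
  set m := Module.finrank F E with hm
  have hm0 : 0 < m := Module.finrank_pos
  unfold TG
  have h1 : ∀ x ∈ (univ : Finset E), minpoly F x ∈ (Irr F m).filter (fun P => P.natDegree ∣ m) := by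
    intro x _
    have hx : IsIntegral F x := Algebra.IsIntegral.isIntegral x
    rw [mem_filter, mem_Irr]
    refine ⟨⟨minpoly.monic hx, minpoly.irreducible hx, Nat.le_of_dvd hm0 (finrank_div x).2⟩,
      (finrank_div x).2⟩
  rw [← sum_fiberwise_of_maps_to h1]
  apply sum_congr rfl
  intro Q hP
  rw [mem_filter, mem_Irr] at hP
  obtain ⟨⟨hmon, hirr, _⟩, hdvd⟩ := hP
  have h2 : ∀ x ∈ univ.filter (fun x : E => minpoly F x = Q),
      (if aeval x den = 0 then 0 else
      ψ (Algebra.trace F E (aeval x P + aeval x num / aeval x den))) =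
        lamR ψ P num den Q ^ (m / Q.natDegree) := by
    intro x hx
    rw [mem_filter] at hx
    have hxi : IsIntegral F x := Algebra.IsIntegral.isIntegral x
    unfold lamR
    by_cases h0 : aeval x den = 0
    · rw [if_pos h0, if_neg (by rw [← hx.2, coprime_minpoly]; exact not_not.2 h0), zero_pow]
      have : 0 < (minpoly F x).natDegree := minpoly.natDegree_pos hxi
      rw [hx.2] at this
      exact (Nat.div_pos (Nat.le_of_dvd hm0 hdvd) this).ne'
    · rw [if_neg h0, if_pos (by rw [← hx.2, coprime_minpoly]; exact h0),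
        trace_R x P num den h0, AddChar.map_nsmul_eq_pow, hx.2]
  rw [sum_congr rfl h2, sum_const, nsmul_eq_mul]
  congr 2
  have h3 : univ.filter (fun x : E => minpoly F x = Q) = (Q.rootSet E).toFinset := by
    ext x
    rw [mem_filter, Set.mem_toFinset, mem_rootSet]
    constructor
    · rintro ⟨_, rfl⟩
      exact ⟨hmon.ne_zero, minpoly.aeval F x⟩
    · rintro ⟨_, h⟩
      exact ⟨mem_univ _, (minpoly.eq_of_irreducible_of_monic hirr h hmon).symm⟩
  have hsplit : (Q.map (algebraMap F E)).Splits := by
    have h4 : Q ∣ X ^ (Nat.card F) ^ m - X :=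
      (hirr.natDegree_dvd_iff_dvd_X_pow_card_pow_sub_X).1 hdvd
    have h5 : (Q.map (algebraMap F E)) ∣ (X ^ (Nat.card F) ^ m - X : E[X]) := by
      have := Polynomial.map_dvd (algebraMap F E) h4
      simpa using this
    have hcard : (Nat.card F) ^ m = Fintype.card E := by
      rw [Nat.card_eq_fintype_card, Module.card_eq_pow_finrank (K := F) (V := E)]
    rw [hcard] at h5
    have h6 : (X ^ Fintype.card E - X : E[X]).Splits := by
      rw [splits_iff_card_roots, FiniteField.roots_X_pow_card_sub_X,
        FiniteField.X_pow_card_sub_X_natDegree_eq _ Fintype.one_lt_card]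
      rfl
    exact h6.of_dvd (FiniteField.X_pow_card_sub_X_ne_zero _ Fintype.one_lt_card) h5
  rw [h3, Set.toFinset_card, card_rootSet_eq_natDegree (PerfectField.separable_of_irreducible hirr)
    hsplit]

/-- the sum is not trivial: the polynomial part has degree prime to the characteristic, or it
vanishes and the multiplicative function is not trivial -/
def NT (ψ : AddChar F ℂ) (P num den : F[X]) : Prop :=
  (1 ≤ P.natDegree ∧ (P.natDegree : F) ≠ 0) ∨
    (P = 0 ∧ ∃ h : F[X], h.Monic ∧ IsCoprime h den ∧ ψ (T num den h) ≠ 1)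

/-- vanishing in large degree, polynomial part not constant -/
theorem AR_eq_zero1 {ψ : AddChar F ℂ} (hψ : ψ.IsPrimitive) {P num den : F[X]} (hd : den.Monic)
    (hnd : num.degree < den.degree) (hk : 1 ≤ P.natDegree)
    (hkF : (P.natDegree : F) ≠ 0) (n : ℕ) (hn : P.natDegree + 2 * den.natDegree ≤ n) :
    AG (lamR ψ P num den) n = 0 := by
  classical
  set k := P.natDegree with hkdef
  set d := den.natDegree with hddef
  set u : F → F[X] := fun s => C s * (X ^ (n - k - 2 * d) * den ^ 2) with hu
  have hM : (X ^ (n - k - 2 * d) * den ^ 2 : F[X]).Monic := (monic_X_pow _).mul (hd.pow 2)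
  have hMd : (X ^ (n - k - 2 * d) * den ^ 2 : F[X]).natDegree = n - k := by
    rw [(monic_X_pow _).natDegree_mul (hd.pow 2), natDegree_X_pow, hd.natDegree_pow, ← hddef]
    omega
  have hud : ∀ s, (u s).natDegree ≤ n - k := fun s => (natDegree_C_mul_le _ _).trans hMd.le
  have huc : ∀ s, (u s).coeff (n - k) = s := by
    intro s
    have := hM.coeff_natDegree
    rw [hMd] at this
    rw [hu]
    simp only
    rw [coeff_C_mul, this, mul_one]
  have hkey : ∀ (s : F) (h : F[X]), h ∈ Mon F n → h + u s ∈ Mon F n ∧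
      Pool.Agent.Y951.WP.T P (h + u s) = Pool.Agent.Y951.WP.T P h - P.leadingCoeff * (k : F) * s := by
    intro s h hh
    rw [mem_Mon] at hh
    obtain ⟨h1, h2, h3⟩ := T_shiftG P hk hh.1 (by rw [hh.2]; omega) (u := u s)
      (by rw [hh.2]; exact hud s)
    rw [hh.2, ← hkdef, huc] at h3
    rw [mem_Mon]
    exact ⟨⟨h1, by rw [h2, hh.2]⟩, h3⟩
  have hval : ∀ (s : F) (h : F[X]), h ∈ Mon F n → lamR ψ P num den (h + u s) =
      lamR ψ P num den h * ψ (s * (-(P.leadingCoeff * (k : F)))) := by
    intro s h hh
    have h3 := (hkey s h hh).2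
    have h4 : T num den (h + u s) = T num den h := by
      apply T_mod num den hd hnd
      rw [add_sub_cancel_left]
      exact dvd_mul_of_dvd_right (dvd_mul_left _ _) _
    have h5 : IsCoprime (h + u s) den ↔ IsCoprime h den := by
      have : u s = den * (C s * (X ^ (n - k - 2 * d) * den)) := by
        rw [hu]
        ring
      rw [this]
      exact IsCoprime.add_mul_left_left_iff
    unfold lamR
    by_cases h6 : IsCoprime h den
    · rw [if_pos (h5.2 h6), if_pos h6, ← AddChar.map_add_eq_mul]
      congr 1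
      unfold T2
      rw [h3, h4]
      ring
    · rw [if_neg (fun h => h6 (h5.1 h)), if_neg h6, zero_mul]
  have hneg : ∀ s, u (-s) = - u s := by
    intro s
    rw [hu]
    simp
  have hperm : ∀ s : F, ∑ h ∈ Mon F n, lamR ψ P num den h =
      ∑ h ∈ Mon F n, lamR ψ P num den (h + u s) := by
    intro s
    symm
    refine sum_bij' (fun h _ => h + u s) (fun h _ => h + u (-s))
      (fun h hh => (hkey s h hh).1) (fun h hh => (hkey (-s) h hh).1) ?_ ?_ ?_
    · intro h _
      simp [hneg]
    · intro h _
      simp [hneg]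
    · intro h _
      rfl
  have h1 : (Fintype.card F : ℂ) * AG (lamR ψ P num den) n =
      ∑ s : F, ∑ h ∈ Mon F n, lamR ψ P num den (h + u s) := by
    unfold AG
    rw [← card_univ, ← nsmul_eq_mul, ← sum_const]
    exact sum_congr rfl fun s _ => hperm s
  have hf0 : P ≠ 0 := by
    intro h
    rw [hkdef, h, natDegree_zero] at hk
    omega
  have h2 : ∑ s : F, ∑ h ∈ Mon F n, lamR ψ P num den (h + u s) = 0 := by
    rw [sum_comm]
    apply sum_eq_zero
    intro h hh
    rw [sum_congr rfl fun s _ => hval s h hh, ← mul_sum, AddChar.sum_mulShift _ hψ, if_neg,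
      Nat.cast_zero, mul_zero]
    exact neg_ne_zero.2 (mul_ne_zero (leadingCoeff_ne_zero.2 hf0) hkF)
  rw [h2] at h1
  rcases mul_eq_zero.1 h1 with h | h
  · exfalso
    exact Fintype.card_ne_zero (α := F) (by exact_mod_cast h)
  · exact h

/-- vanishing in large degree, polynomial part zero -/
theorem AR_eq_zero2 {ψ : AddChar F ℂ} {num den : F[X]} (hd : den.Monic)
    (hnd : num.degree < den.degree) {h₀ : F[X]} (hh₀ : h₀.Monic) (hc₀ : IsCoprime h₀ den)
    (hψ₀ : ψ (T num den h₀) ≠ 1) (n : ℕ) (hn : 2 * den.natDegree ≤ n) :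
    AG (lamR ψ 0 num den) n = 0 := by
  classical
  set M : F[X] := den ^ 2 with hM
  have hMm : M.Monic := hd.pow 2
  have hMd : M.natDegree = 2 * den.natDegree := hd.natDegree_pow 2
  -- the inverse of `h₀` modulo `M`
  obtain ⟨h₁, hh₁⟩ : ∃ h₁ : F[X], M ∣ h₁ * h₀ - 1 := by
    have : IsCoprime h₀ M := hc₀.pow_right
    obtain ⟨a, b, hab⟩ := this
    refine ⟨a, -b, ?_⟩
    linear_combination hab
  set Φ : F[X] → F[X] → F[X] := fun g h => h - h %ₘ M + (g * h) %ₘ M with hΦ
  have hmodlt : ∀ q : F[X], (q %ₘ M).degree < M.degree := fun q => degree_modByMonic_lt q hMm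
  have hΦmem : ∀ g h : F[X], h ∈ Mon F n → Φ g h ∈ Mon F n := by
    intro g h hh
    rw [mem_Mon] at hh ⊢
    have hle : M.degree ≤ h.degree := by
      rw [degree_eq_natDegree hMm.ne_zero, degree_eq_natDegree hh.1.ne_zero, hMd, hh.2]
      exact_mod_cast hn
    have hlt : (-(h %ₘ M) + (g * h) %ₘ M).degree < h.degree := by
      refine (degree_add_le _ _).trans_lt (max_lt ?_ ((hmodlt _).trans_le hle))
      rw [degree_neg]
      exact (hmodlt _).trans_le hle
    have e : Φ g h = h + (-(h %ₘ M) + (g * h) %ₘ M) := by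
      rw [hΦ]
      ring
    rw [e]
    exact ⟨hh.1.add_of_left hlt, by rw [natDegree_add_eq_left_of_degree_lt hlt, hh.2]⟩
  have hself : ∀ q : F[X], M ∣ q - q %ₘ M := by
    intro q
    refine ⟨q /ₘ M, ?_⟩
    have := modByMonic_add_div q M
    linear_combination -this
  have hΦcong : ∀ g h : F[X], M ∣ Φ g h - g * h := by
    intro g h
    have h1 := hself h
    have h2 := hself (g * h)
    have e : Φ g h - g * h = (h - h %ₘ M) - (g * h - (g * h) %ₘ M) := by
      rw [hΦ]
      ring
    rw [e]
    exact dvd_sub h1 h2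
  have hcongmod : ∀ a b : F[X], M ∣ a - b → a %ₘ M = b %ₘ M := by
    intro a b hab
    have h1 := (modByMonic_eq_zero_iff_dvd hMm).2 hab
    rw [sub_modByMonic] at h1
    exact sub_eq_zero.1 h1
  have hinv : ∀ g g' h : F[X], M ∣ g' * g - 1 → Φ g' (Φ g h) = h := by
    intro g g' h hg
    have h1 : (Φ g h) %ₘ M = (g * h) %ₘ M := hcongmod _ _ (hΦcong g h)
    have h2 : (g' * Φ g h) %ₘ M = h %ₘ M := by
      apply hcongmod
      have h3 : g' * Φ g h - h = g' * (Φ g h - g * h) + h * (g' * g - 1) := by ring
      rw [h3]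
      exact dvd_add (dvd_mul_of_dvd_right (hΦcong g h) _) (dvd_mul_of_dvd_right hg _)
    have e : Φ g' (Φ g h) = Φ g h - (Φ g h) %ₘ M + (g' * Φ g h) %ₘ M := rfl
    rw [e, h1, h2]
    have e2 : Φ g h = h - h %ₘ M + (g * h) %ₘ M := rfl
    rw [e2]
    ring
  have hh₁' : M ∣ h₀ * h₁ - 1 := by rwa [mul_comm]
  have hval : ∀ h ∈ Mon F n, lamR ψ 0 num den (Φ h₀ h) = ψ (T num den h₀) * lamR ψ 0 num den h := by
    intro h hh
    have hmemh := hh
    rw [mem_Mon] at hh
    have hmon := hΦmem h₀ h hmemh
    rw [mem_Mon] at hmon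
    have hcg := hΦcong h₀ h
    have hcp : IsCoprime (Φ h₀ h) den ↔ IsCoprime h den := by
      obtain ⟨q, hq⟩ := hcg
      have e : Φ h₀ h = h₀ * h + den * (den * q) := by
        rw [hM] at hq
        linear_combination hq
      rw [e, IsCoprime.add_mul_left_left_iff]
      constructor
      · intro h
        exact h.of_mul_left_right
      · intro h
        exact hc₀.mul_left h
    have hT : T num den (Φ h₀ h) = T num den (h₀ * h) := T_mod num den hd hnd hcg
    unfold lamR
    by_cases h6 : IsCoprime h den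
    · rw [if_pos (hcp.2 h6), if_pos h6, ← AddChar.map_add_eq_mul]
      congr 1
      unfold T2
      rw [hT, T_mul num den hh₀ hh.1 hc₀ h6]
      have e1 : ∀ q : F[X], Pool.Agent.Y951.WP.T 0 q = 0 := by
        intro q
        unfold Pool.Agent.Y951.WP.T
        simp
      rw [e1, e1]
      ring
    · rw [if_neg (fun h => h6 (hcp.1 h)), if_neg h6, mul_zero]
  have hperm : ∑ h ∈ Mon F n, lamR ψ 0 num den (Φ h₀ h) = ∑ h ∈ Mon F n, lamR ψ 0 num den h := by
    refine sum_bij' (fun h _ => Φ h₀ h) (fun h _ => Φ h₁ h) (fun h hh => hΦmem h₀ h hh)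
      (fun h hh => hΦmem h₁ h hh) ?_ ?_ ?_
    · intro h _
      exact hinv h₀ h₁ h hh₁
    · intro h _
      exact hinv h₁ h₀ h hh₁'
    · intro h _
      rfl
  have h1 : AG (lamR ψ 0 num den) n = ψ (T num den h₀) * AG (lamR ψ 0 num den) n := by
    unfold AG
    conv_lhs => rw [← hperm, sum_congr rfl hval]
    rw [mul_sum]
  have h2 : (1 - ψ (T num den h₀)) * AG (lamR ψ 0 num den) n = 0 := by
    linear_combination h1
  rcases mul_eq_zero.1 h2 with h | h
  · exact absurd (sub_eq_zero.1 h).symm hψ₀
  · exact h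

theorem AR_eq_zero {ψ : AddChar F ℂ} (hψ : ψ.IsPrimitive) {P num den : F[X]} (hd : den.Monic)
    (hnd : num.degree < den.degree) (hNT : NT ψ P num den) (n : ℕ)
    (hn : P.natDegree + 2 * den.natDegree ≤ n) : AG (lamR ψ P num den) n = 0 := by
  rcases hNT with h | ⟨rfl, h₀, h1, h2, h3⟩
  · exact AR_eq_zero1 hψ hd hnd h.1 h.2 n hn
  · exact AR_eq_zero2 hd hnd h1 h2 h3 n (by simpa using hn)

/-- the bound for the degree -/
noncomputable def DD (P den : F[X]) : ℕ := P.natDegree + 2 * den.natDegree

/-- the `L`-polynomial -/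
noncomputable def LR (ψ : AddChar F ℂ) (P num den : F[X]) : ℂ[X] :=
  ∑ n ∈ range (DD P den + 1), C (AG (lamR ψ P num den) n) * X ^ n

theorem LR_coeff {ψ : AddChar F ℂ} (hψ : ψ.IsPrimitive) {P num den : F[X]} (hd : den.Monic)
    (hnd : num.degree < den.degree) (hNT : NT ψ P num den) (n : ℕ) :
    (LR ψ P num den).coeff n = AG (lamR ψ P num den) n := by
  rw [LR, finsetSum_coeff]
  simp_rw [coeff_C_mul_X_pow]
  by_cases hn : n < DD P den + 1
  · rw [sum_eq_single n]
    · simp
    · intro b _ hb
      rw [if_neg (Ne.symm hb)]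
    · intro h
      exact absurd (mem_range.2 hn) h
  · rw [sum_eq_zero, AR_eq_zero hψ hd hnd hNT n (by unfold DD at hn; omega)]
    intro b hb
    rw [if_neg]
    rintro rfl
    exact hn (mem_range.1 hb)

theorem LR_zero {ψ : AddChar F ℂ} (hψ : ψ.IsPrimitive) {P num den : F[X]} (hd : den.Monic)
    (hnd : num.degree < den.degree) (hNT : NT ψ P num den) : (LR ψ P num den).coeff 0 = 1 := by
  rw [LR_coeff hψ hd hnd hNT, AG_zero (lamR_mult ψ P num den)]

theorem LR_natDegree {ψ : AddChar F ℂ} (hψ : ψ.IsPrimitive) {P num den : F[X]} (hd : den.Monic)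
    (hnd : num.degree < den.degree) (hNT : NT ψ P num den) :
    (LR ψ P num den).natDegree ≤ DD P den - 1 := by
  rw [natDegree_le_iff_coeff_eq_zero]
  intro n hn
  rw [LR_coeff hψ hd hnd hNT, AR_eq_zero hψ hd hnd hNT n (by unfold DD at hn; omega)]

theorem LR_HID {ψ : AddChar F ℂ} (hψ : ψ.IsPrimitive) {P num den : F[X]} (hd : den.Monic)
    (hnd : num.degree < den.degree) (hNT : NT ψ P num den) :
    HID (LR ψ P num den) (TG (lamR ψ P num den)) := by
  intro n
  simp_rw [LR_coeff hψ hd hnd hNT]
  exact n_mul_AG (lamR_mult ψ P num den) n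

end Lam

end Pool.Agent.Run7.h90.RW
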