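import Pool.Agent.Y951.WP.Core
import Pool.Agent.H498R2.KlMain
import Pool.Agent.Run7.h90.RW.Lam

/-!
# Weil's bound for additive character sums of rational functions over prime fields (helper90)
-/

set_option autoImplicit false
set_option linter.all false

open Polynomial Finset
open Pool.Agent.H341R2.Sharp Pool.Agent.H498R2.Kl
open Pool.Agent.Y807.WB

namespace Pool.Agent.Run7.h90.RW

/-- a rational function of degree less than `p` which is not constant is not of the form `y ^ p - y` -/
theorem no_rat {k : Type} [Field k] (p : ℕ) [Fact p.Prime] (a b : k[X]) (ha : a.natDegree < p)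
    (hb : b.natDegree < p) (hb0 : b ≠ 0) (hab : ∀ c : k, a ≠ C c * b) (y : RatFunc k)
    (hy : cH k (RatFunc k) b * (y ^ p - y) = cH k (RatFunc k) a) : False := by
  have hpp : p.Prime := Fact.out
  have h1 : ∀ g : k[X], cH k (RatFunc k) g = algebraMap k[X] (RatFunc k) g := fun g => rfl
  rw [h1, h1] at hy
  set u := y.num with hu
  set v := y.denom with hv
  have hcop : IsCoprime u v := RatFunc.isCoprime_num_denom y
  have hvm : v.Monic := RatFunc.monic_denom y
  have hyuv : y = algebraMap k[X] (RatFunc k) u / algebraMap k[X] (RatFunc k) v :=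
    (RatFunc.num_div_denom y).symm
  have hv0 : algebraMap k[X] (RatFunc k) v ≠ 0 := by
    rw [Ne, map_eq_zero_iff _ (IsFractionRing.injective k[X] (RatFunc k))]
    exact hvm.ne_zero
  have hp1 : p - 1 + 1 = p := Nat.sub_add_cancel hpp.one_le
  have h2 : b * (u ^ p - u * v ^ (p - 1)) = a * v ^ p := by
    apply IsFractionRing.injective k[X] (RatFunc k)
    rw [map_mul, map_sub, map_pow, map_mul, map_pow, map_mul, map_pow, ← hy, hyuv]
    have e1 : (algebraMap k[X] (RatFunc k) v) ^ p =
        (algebraMap k[X] (RatFunc k) v) ^ (p - 1) * algebraMap k[X] (RatFunc k) v := by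
      rw [← pow_succ, hp1]
    rw [div_pow, mul_assoc, sub_mul, div_mul_cancel₀ _ (pow_ne_zero _ hv0)]
    congr 2
    rw [e1]
    field_simp
  have h3 : v ^ p ∣ b * (u ^ p - u * v ^ (p - 1)) := ⟨a, by rw [h2]; ring⟩
  have hcop2 : IsCoprime (v ^ p) (u ^ p - u * v ^ (p - 1)) := by
    apply IsCoprime.pow_left
    have e2 : v ^ (p - 1) = v * v ^ (p - 2) := by
      rw [← pow_succ']
      congr 1
      have := hpp.two_le
      omega
    have e3 : u ^ p - u * v ^ (p - 1) = u ^ p + v * (-(u * v ^ (p - 2))) := by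
      rw [e2]
      ring
    rw [e3, IsCoprime.add_mul_left_right_iff]
    exact hcop.symm.pow_right
  have h4 : v ^ p ∣ b := hcop2.dvd_of_dvd_mul_right h3
  have h5 := natDegree_le_of_dvd h4 hb0
  rw [hvm.natDegree_pow] at h5
  have h6 : v.natDegree = 0 := by
    rcases Nat.eq_zero_or_pos v.natDegree with h | h
    · exact h
    · nlinarith
  have h7 : v = 1 := hvm.natDegree_eq_zero.1 h6
  rw [h7, one_pow, one_pow, mul_one, mul_one] at h2
  rcases Nat.eq_zero_or_pos u.natDegree with h0 | h0
  · obtain ⟨c, hc⟩ := natDegree_eq_zero.1 h0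
    apply hab (c ^ p - c)
    rw [← h2, ← hc]
    simp
    ring
  · have hne : u ^ p - u ≠ 0 := by
      intro h
      have h8 := congrArg natDegree (sub_eq_zero.1 h)
      rw [natDegree_pow] at h8
      have := hpp.two_le
      nlinarith
    have h8 : (u ^ p - u).natDegree = p * u.natDegree := by
      rw [natDegree_sub_eq_left_of_natDegree_lt, natDegree_pow]
      rw [natDegree_pow]
      have := hpp.two_le
      nlinarith
    have h9 := congrArg natDegree h2
    rw [natDegree_mul hb0 hne, h8] at h9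
    nlinarith

section Count
variable (p : ℕ) [Fact p.Prime]

/-- the rational function -/
noncomputable def fR {F : Type} [Field F] {E : Type} [Field E] [Algebra F E] (P num den : F[X])
    (x : E) : E := aeval x P + aeval x num / aeval x den

open Classical in
/-- the points which are not poles -/
noncomputable def GP {F : Type} [Field F] (E : Type) [Field E] [Fintype E] [Algebra F E]
    (den : F[X]) : Finset E := univ.filter (fun x : E => aeval x den ≠ 0)

open Classical in
/-- the points with a given trace -/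
noncomputable def NP {F : Type} [Field F] (E : Type) [Field E] [Fintype E] [Algebra F E]
    (P num den : F[X]) (t : F) : Finset E :=
  (GP E den).filter (fun x : E => Algebra.trace F E (fR P num den x) = t)

open Classical in
theorem mem_GP {F : Type} [Field F] {E : Type} [Field E] [Fintype E] [Algebra F E]
    {den : F[X]} {x : E} : x ∈ GP E den ↔ aeval x den ≠ 0 := by
  unfold GP
  rw [mem_filter]
  exact and_iff_right (mem_univ _)

open Classical in
theorem mem_NP {F : Type} [Field F] {E : Type} [Field E] [Fintype E] [Algebra F E]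
    {P num den : F[X]} {t : F} {x : E} : x ∈ NP E P num den t ↔
      aeval x den ≠ 0 ∧ Algebra.trace F E (fR P num den x) = t := by
  unfold NP
  rw [mem_filter, mem_GP]

/-- there are few poles -/
theorem card_GP {F : Type} [Field F] (E : Type) [Field E] [Fintype E] [Algebra F E]
    {den : F[X]} (hd : den ≠ 0) : Fintype.card E ≤ (GP E den).card + den.natDegree := by
  classical
  have h1 : (univ : Finset E) ⊆ GP E den ∪ (den.aroots E).toFinset := by
    intro x _
    rw [mem_union, mem_GP, Multiset.mem_toFinset, mem_aroots]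
    by_cases h : aeval x den = 0
    · exact Or.inr ⟨hd, h⟩
    · exact Or.inl h
  have h2 := (card_le_card h1).trans (card_union_le _ _)
  rw [card_univ] at h2
  refine h2.trans (Nat.add_le_add_left ?_ _)
  refine (Multiset.toFinset_card_le _).trans ?_
  unfold aroots
  refine (card_roots' _).trans ?_
  rw [natDegree_map]

theorem count_bound (P num den : (ZMod p)[X]) (hd : den ≠ 0)
    (hnr : ∀ y : RatFunc (AlgebraicClosure (ZMod p)),
      cH (AlgebraicClosure (ZMod p)) (RatFunc (AlgebraicClosure (ZMod p)))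
        (den.map (algebraMap (ZMod p) (AlgebraicClosure (ZMod p)))) * (y ^ p - y) =
      cH (AlgebraicClosure (ZMod p)) (RatFunc (AlgebraicClosure (ZMod p)))
        ((P * den + num).map (algebraMap (ZMod p) (AlgebraicClosure (ZMod p)))) → False) :
    ∃ C0 N0 : ℕ, ∀ m : ℕ, N0 ≤ m → ∀ (E : Type) [Field E] [Fintype E] [Algebra (ZMod p) E],
      Module.finrank (ZMod p) E = m → ∀ t : ZMod p,
      p * (NP E P num den t).card ≤ p ^ m + C0 * p ^ (m - m / 2) := by
  classical
  have hpp : p.Prime := Fact.out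
  let k := AlgebraicClosure (ZMod p)
  let j : ZMod p →+* k := algebraMap (ZMod p) k
  have hj : Function.Injective j := j.injective
  haveI : CharP k p := charP_of_injective_algebraMap hj p
  have hfix : ∀ f : (ZMod p)[X], ∀ i, (f.map j).coeff i ^ p = (f.map j).coeff i := by
    intro f i
    rw [coeff_map, ← map_pow, ZMod.pow_card]
  obtain ⟨C0, N0, hcore⟩ := Pool.Agent.Y951.WP.coreP k p ((P * den + num).map j) (den.map j)
    (hfix _) (hfix _) ((Polynomial.map_ne_zero_iff hj).2 hd) hnr
  refine ⟨C0, N0, fun m hm E _ _ _ hE t => ?_⟩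
  haveI : Module.Finite (ZMod p) E := Module.Finite.of_finite
  haveI : Algebra.IsAlgebraic (ZMod p) E := Algebra.IsAlgebraic.of_finite _ _
  let ι : E →ₐ[ZMod p] k := IsAlgClosed.lift
  have hι : Function.Injective ι := ι.toRingHom.injective
  have hcard : Fintype.card E = p ^ m := by
    rw [Module.card_eq_pow_finrank (K := ZMod p) (V := E), ZMod.card, hE]
  have key := hcore m hm (j t) (by rw [← map_pow, ZMod.pow_card]) ((NP E P num den t).image ι) (by
    intro z hz
    rw [mem_image] at hz
    obtain ⟨x, hx, rfl⟩ := hz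
    rw [mem_NP] at hx
    have hcomm : ∀ s : ZMod p, ι (algebraMap (ZMod p) E s) = j s := fun s => ι.commutes s
    have hev : ∀ q : (ZMod p)[X], (q.map j).eval (ι x) = ι (aeval x q) := by
      intro q
      rw [eval_map_algebraMap, aeval_algHom_apply]
    refine ⟨?_, ?_, ?_⟩
    · rw [← map_pow, ← hcard, FiniteField.pow_card]
    · rw [hev]
      intro h
      exact hx.1 (hι (by rw [h, map_zero]))
    · have h1 : ((P * den + num).map j).eval (ι x) / (den.map j).eval (ι x) =
          ι (fR P num den x) := by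
        rw [hev, hev, ← map_div₀, map_add, map_mul]
        congr 1
        unfold fR
        field_simp [hx.1]
      rw [h1, ← hx.2]
      have h2 := FiniteField.algebraMap_trace_eq_sum_pow (ZMod p) E (fR P num den x)
      rw [← hcomm, h2, map_sum, hE]
      apply sum_congr rfl
      intro i _
      rw [map_pow, Nat.card_zmod])
  rwa [card_image_of_injective _ hι] at key

end Count

section Sums
variable (p : ℕ) [Fact p.Prime]

theorem fR_smul {E : Type} [Field E] [Algebra (ZMod p) E] (s : ZMod p) (P num den : (ZMod p)[X])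
    (x : E) : fR (C s * P) (C s * num) den x = s • fR P num den x := by
  unfold fR
  rw [map_mul, map_mul, aeval_C, Algebra.smul_def]
  ring

theorem sum_TP (E : Type) [Field E] [Fintype E] [DecidableEq E] [Algebra (ZMod p) E]
    {ψ : AddChar (ZMod p) ℂ} (hψ : ψ.IsPrimitive) (P num den : (ZMod p)[X]) :
    ∑ s ∈ univ.filter (fun s : ZMod p => s ≠ 0),
      TG (lamR ψ (C s * P) (C s * num) den) (Module.finrank (ZMod p) E) =
      (p : ℂ) * (NP E P num den 0).card - ((GP E den).card : ℂ) := by
  classical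
  have h1 : ∀ s : ZMod p, TG (lamR ψ (C s * P) (C s * num) den) (Module.finrank (ZMod p) E) =
      ∑ x ∈ GP E den, ψ (s * Algebra.trace (ZMod p) E (fR P num den x)) := by
    intro s
    rw [TR_eq_sum (E := E), GP, sum_filter]
    apply sum_congr rfl
    intro x _
    by_cases h0 : aeval x den = 0
    · rw [if_pos h0, if_neg (not_not.2 h0)]
    · rw [if_neg h0, if_pos h0]
      congr 1
      have := fR_smul p s P num den x
      unfold fR at this
      rw [this, map_smul, smul_eq_mul]
      rfl
  have h2 : ∑ s : ZMod p, TG (lamR ψ (C s * P) (C s * num) den) (Module.finrank (ZMod p) E) =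
      (p : ℂ) * (NP E P num den 0).card := by
    simp_rw [h1]
    rw [sum_comm]
    simp_rw [AddChar.sum_mulShift _ hψ]
    have e2 : ((NP E P num den 0).card : ℂ) =
        ∑ x ∈ GP E den, if (Algebra.trace (ZMod p) E (fR P num den x) = 0)
        then (1 : ℂ) else 0 := by
      rw [← sum_filter, sum_const, nsmul_eq_mul, mul_one]
      congr 2
      ext x
      simp only [mem_NP, mem_filter, mem_GP]
    rw [e2, mul_sum]
    apply sum_congr rfl
    intro x _
    rw [ZMod.card]
    by_cases h' : Algebra.trace (ZMod p) E (fR P num den x) = 0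
    · rw [if_pos h', if_pos h', mul_one]
    · rw [if_neg h', if_neg h', mul_zero, Nat.cast_zero]
  have h3 : TG (lamR ψ (C 0 * P) (C 0 * num) den) (Module.finrank (ZMod p) E) =
      ((GP E den).card : ℂ) := by
    rw [h1 0]
    simp
  have h4 : ∑ s : ZMod p, TG (lamR ψ (C s * P) (C s * num) den) (Module.finrank (ZMod p) E) =
      ∑ s ∈ univ.filter (fun s : ZMod p => s ≠ 0),
        TG (lamR ψ (C s * P) (C s * num) den) (Module.finrank (ZMod p) E) +
        TG (lamR ψ (C 0 * P) (C 0 * num) den) (Module.finrank (ZMod p) E) := by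
    rw [← sum_filter_add_sum_filter_not univ (fun s : ZMod p => s ≠ 0)]
    congr 1
    have : (univ.filter fun s : ZMod p => ¬ s ≠ 0) = {0} := by
      ext s
      simp
    rw [this, sum_singleton]
  rw [h4, h3] at h2
  rw [← h2]
  ring

theorem count_two_sided (P num den : (ZMod p)[X]) (hd : den ≠ 0)
    (hcb : ∃ C0 N0 : ℕ, ∀ m : ℕ, N0 ≤ m → ∀ (E : Type) [Field E] [Fintype E] [Algebra (ZMod p) E],
      Module.finrank (ZMod p) E = m → ∀ t : ZMod p,
      p * (NP E P num den t).card ≤ p ^ m + C0 * p ^ (m - m / 2)) :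
    ∃ C1 : ℝ, 0 ≤ C1 ∧ ∀ m : ℕ, 1 ≤ m → ∀ (E : Type) [Field E] [Fintype E] [DecidableEq E]
      [Algebra (ZMod p) E], Module.finrank (ZMod p) E = m →
      |(p : ℝ) * (NP E P num den 0).card - ((GP E den).card : ℝ)| ≤ C1 * (Real.sqrt p) ^ m := by
  classical
  have hpp : p.Prime := Fact.out
  obtain ⟨C0, N0, hcb⟩ := hcb
  have hp1 : (1 : ℝ) ≤ p := by exact_mod_cast hpp.one_le
  have hs1 : 1 ≤ Real.sqrt p := by rwa [Real.one_le_sqrt]
  have hss : Real.sqrt p * Real.sqrt p = p := Real.mul_self_sqrt (by positivity)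
  refine ⟨(p : ℝ) * (p : ℝ) ^ N0 + p * C0 * Real.sqrt p + p * den.natDegree, by positivity, ?_⟩
  intro m hm E _ _ _ _ hE
  have hcard : Fintype.card E = p ^ m := by
    rw [Module.card_eq_pow_finrank (K := ZMod p) (V := E), ZMod.card, hE]
  have hNG : (NP E P num den 0).card ≤ (GP E den).card := by
    apply card_le_card
    intro x hx
    rw [mem_NP] at hx
    exact mem_GP.2 hx.1
  have hGe : (GP E den).card ≤ p ^ m := by
    rw [← hcard]
    exact card_le_univ _
  have hGe2 : p ^ m ≤ (GP E den).card + den.natDegree := by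
    rw [← hcard]
    exact card_GP E hd
  set G : ℝ := ((GP E den).card : ℝ) with hG
  have hG1 : G ≤ (p : ℝ) ^ m := by
    rw [hG]
    exact_mod_cast hGe
  have hG2 : (p : ℝ) ^ m ≤ G + den.natDegree := by
    rw [hG]
    exact_mod_cast hGe2
  have hG0 : 0 ≤ G := by positivity
  have hsq : Real.sqrt p ^ m * Real.sqrt p ^ m = (p : ℝ) ^ m := by
    rw [← mul_pow, hss]
  have hsm : 1 ≤ Real.sqrt p ^ m := one_le_pow₀ hs1
  have hD : (p : ℝ) * den.natDegree ≤ p * den.natDegree * Real.sqrt p ^ m :=
    le_mul_of_one_le_right (by positivity) hsm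
  have hN1 : ((NP E P num den 0).card : ℝ) ≤ G := by
    rw [hG]
    exact_mod_cast hNG
  have hN0 : (0 : ℝ) ≤ ((NP E P num den 0).card : ℝ) := by positivity
  by_cases hmN : N0 ≤ m
  · -- large `m`
    have hb : ∀ t : ZMod p, (p : ℝ) * (NP E P num den t).card ≤
        (p : ℝ) ^ m + C0 * (p : ℝ) ^ (m - m / 2) := by
      intro t
      exact_mod_cast hcb m hmN E hE t
    have hsum : ∑ t : ZMod p, ((NP E P num den t).card : ℝ) = G := by
      have h1 : (GP E den).card = ∑ t : ZMod p, (NP E P num den t).card := by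
        rw [card_eq_sum_card_fiberwise (f := fun x => Algebra.trace (ZMod p) E (fR P num den x))
          (t := univ) (fun _ _ => mem_univ _)]
        refine sum_congr rfl fun t _ => ?_
        congr 1
        ext x
        simp only [mem_NP, mem_filter, mem_GP]
      rw [hG]
      exact_mod_cast h1.symm
    have hpw : (p : ℝ) ^ (m - m / 2) ≤ Real.sqrt p * Real.sqrt p ^ m := by
      have h1 : (p : ℝ) ^ (m - m / 2) = Real.sqrt p ^ (2 * (m - m / 2)) := by
        rw [pow_mul, sq, hss]
      rw [h1, ← pow_succ']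
      exact pow_le_pow_right₀ hs1 (by omega)
    have hupper : (p : ℝ) * (NP E P num den 0).card - G ≤
        C0 * (p : ℝ) ^ (m - m / 2) + den.natDegree := by
      have h1 := hb 0
      linarith
    have hlower : -(((p : ℝ) - 1) * (C0 * (p : ℝ) ^ (m - m / 2) + den.natDegree)) ≤
        (p : ℝ) * (NP E P num den 0).card - G := by
      have h1 : ∑ t ∈ univ.erase (0 : ZMod p), (p : ℝ) * ((NP E P num den t).card : ℝ) ≤
          ((p : ℝ) - 1) * ((p : ℝ) ^ m + C0 * (p : ℝ) ^ (m - m / 2)) := by
        refine (sum_le_card_nsmul _ _ _ fun t _ => hb t).trans ?_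
        rw [card_erase_of_mem (mem_univ _), card_univ, ZMod.card, nsmul_eq_mul,
          Nat.cast_sub hpp.one_le, Nat.cast_one]
      have h2 : (p : ℝ) * (NP E P num den 0).card +
          ∑ t ∈ univ.erase (0 : ZMod p), (p : ℝ) * ((NP E P num den t).card : ℝ) = p * G := by
        rw [add_sum_erase univ (fun t => (p : ℝ) * ((NP E P num den t).card : ℝ))
          (mem_univ (0 : ZMod p)), ← mul_sum, hsum]
      nlinarith
    have h5 : 0 ≤ C0 * (p : ℝ) ^ (m - m / 2) := by positivity
    have h5' : (0 : ℝ) ≤ den.natDegree := by positivity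
    have h6 : |(p : ℝ) * (NP E P num den 0).card - G| ≤
        p * (C0 * (p : ℝ) ^ (m - m / 2)) + p * den.natDegree := by
      rw [abs_le]
      constructor
      · nlinarith
      · nlinarith
    refine h6.trans ?_
    have h7 : C0 * (p : ℝ) ^ (m - m / 2) ≤ C0 * (Real.sqrt p * Real.sqrt p ^ m) :=
      mul_le_mul_of_nonneg_left hpw (Nat.cast_nonneg _)
    have h8 : (p : ℝ) * (C0 * (p : ℝ) ^ (m - m / 2)) ≤ p * (C0 * (Real.sqrt p * Real.sqrt p ^ m)) :=
      mul_le_mul_of_nonneg_left h7 (by linarith)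
    have h10 : (0 : ℝ) ≤ (p : ℝ) * (p : ℝ) ^ N0 * Real.sqrt p ^ m := by positivity
    have : (p : ℝ) * (C0 * (Real.sqrt p * Real.sqrt p ^ m)) = p * C0 * Real.sqrt p * Real.sqrt p ^ m := by
      ring
    rw [add_mul, add_mul]
    linarith
  · -- small `m`
    push Not at hmN
    have h1 : |(p : ℝ) * (NP E P num den 0).card - G| ≤ p * (p : ℝ) ^ m := by
      have h4 : (0 : ℝ) ≤ (p : ℝ) ^ m := by positivity
      rw [abs_le]
      constructor
      · nlinarith
      · nlinarith
    have h3 : (p : ℝ) ^ m ≤ (p : ℝ) ^ N0 := pow_le_pow_right₀ hp1 hmN.le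
    have h4 : (p : ℝ) * (p : ℝ) ^ m ≤ (p : ℝ) * (p : ℝ) ^ N0 * Real.sqrt p ^ m := by
      have h5 : (0 : ℝ) ≤ (p : ℝ) * (p : ℝ) ^ N0 := by positivity
      calc (p : ℝ) * (p : ℝ) ^ m ≤ p * (p : ℝ) ^ N0 := by nlinarith
        _ ≤ _ := le_mul_of_one_le_right h5 hsm
    have h6 : (0 : ℝ) ≤ p * C0 * Real.sqrt p * Real.sqrt p ^ m := by positivity
    have h7 : (0 : ℝ) ≤ p * den.natDegree * Real.sqrt p ^ m := by positivity
    rw [add_mul, add_mul]
    linarith

theorem sum_TG_bound (P num den : (ZMod p)[X]) (hd : den ≠ 0)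
    (hcb : ∃ C0 N0 : ℕ, ∀ m : ℕ, N0 ≤ m → ∀ (E : Type) [Field E] [Fintype E] [Algebra (ZMod p) E],
      Module.finrank (ZMod p) E = m → ∀ t : ZMod p,
      p * (NP E P num den t).card ≤ p ^ m + C0 * p ^ (m - m / 2))
    {ψ : AddChar (ZMod p) ℂ} (hψ : ψ.IsPrimitive) :
    ∃ C1 : ℝ, 0 ≤ C1 ∧ ∀ m : ℕ, 1 ≤ m →
    ‖∑ s ∈ univ.filter (fun s : ZMod p => s ≠ 0), TG (lamR ψ (C s * P) (C s * num) den) m‖ ≤
      C1 * (Real.sqrt p) ^ m := by
  classical
  obtain ⟨C1, hC1, h⟩ := count_two_sided p P num den hd hcb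
  refine ⟨C1, hC1, fun m hm => ?_⟩
  obtain ⟨E, _, _, _, hfr⟩ : ∃ (E : Type) (_ : Field E) (_ : Fintype E) (_ : Algebra (ZMod p) E),
      Module.finrank (ZMod p) E = m :=
    ⟨GaloisField p m, inferInstance, Fintype.ofFinite _, inferInstance, GaloisField.finrank p (by omega)⟩
  have h1 := sum_TP p E hψ P num den
  rw [hfr] at h1
  rw [h1]
  have h2 := h m hm E hfr
  rw [← Real.norm_eq_abs, ← Complex.norm_real] at h2
  push_cast at h2
  exact h2

/-- the traces are not all zero: some polynomial has a nonzero value -/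
theorem exists_T_ne (num den : (ZMod p)[X]) (hd : den ≠ 0)
    (hcb : ∃ C0 N0 : ℕ, ∀ m : ℕ, N0 ≤ m → ∀ (E : Type) [Field E] [Fintype E] [Algebra (ZMod p) E],
      Module.finrank (ZMod p) E = m → ∀ t : ZMod p,
      p * (NP E 0 num den t).card ≤ p ^ m + C0 * p ^ (m - m / 2)) :
    ∃ h : (ZMod p)[X], h.Monic ∧ IsCoprime h den ∧ T num den h ≠ 0 := by
  classical
  have hpp : p.Prime := Fact.out
  by_contra hcon
  push Not at hcon
  obtain ⟨C0, N0, hcb⟩ := hcb
  -- all traces vanish
  have hall : ∀ (E : Type) [Field E] [Fintype E] [Algebra (ZMod p) E],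
      NP E 0 num den 0 = GP E den := by
    intro E _ _ _
    haveI : Module.Finite (ZMod p) E := Module.Finite.of_finite
    ext x
    rw [mem_NP, mem_GP]
    constructor
    · exact fun h => h.1
    · intro h
      refine ⟨h, ?_⟩
      unfold fR
      rw [trace_R x 0 num den h]
      unfold T2
      have e1 : Pool.Agent.Y951.WP.T (0 : (ZMod p)[X]) (minpoly (ZMod p) x) = 0 := by
        unfold Pool.Agent.Y951.WP.T
        simp
      rw [e1, hcon _ (minpoly.monic (Algebra.IsIntegral.isIntegral x)) ((coprime_minpoly x den).2 h)]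
      simp
  -- contradiction for large `m`
  obtain ⟨m, hm1, hm2⟩ : ∃ m : ℕ, N0 ≤ m ∧ 1 ≤ m ∧ p ^ m + C0 * p ^ (m - m / 2) + p * den.natDegree < p * p ^ m := by
    refine ⟨2 * (N0 + C0 + den.natDegree + 2), by omega, by omega, ?_⟩
    set a := N0 + C0 + den.natDegree + 2 with ha
    have e1 : 2 * a - 2 * a / 2 = a := by omega
    rw [e1]
    have h2 : 2 ≤ p := hpp.two_le
    have h3 : a < p ^ a := Nat.lt_pow_self hpp.one_lt
    have e2 : p ^ (2 * a) = p ^ a * p ^ a := by rw [two_mul, pow_add]
    rw [e2]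
    set b := p ^ a with hb
    have h4 : C0 + den.natDegree + 2 ≤ b := by omega
    have h5 : C0 * b + p * den.natDegree < b * b + (p - 2) * (b * b) := by
      have h6 : p * den.natDegree ≤ p * b := Nat.mul_le_mul_left _ (by omega)
      have h7 : 1 ≤ b := by omega
      have hpb : p ≤ b := by
        rw [hb]
        calc p = p ^ 1 := (pow_one p).symm
          _ ≤ p ^ a := Nat.pow_le_pow_right hpp.pos (by omega)
      have h8 : p * den.natDegree ≤ b * den.natDegree := Nat.mul_le_mul_right _ hpb
      have h9 : (C0 + den.natDegree + 2) * b ≤ b * b := Nat.mul_le_mul_right _ h4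
      have h10 : 0 ≤ (p - 2) * (b * b) := Nat.zero_le _
      nlinarith
    have h6 : p * (b * b) = b * b + (b * b + (p - 2) * (b * b)) := by
      obtain ⟨q, rfl⟩ := Nat.exists_eq_add_of_le h2
      rw [Nat.add_sub_cancel_left]
      ring
    omega
  obtain ⟨E, _, _, _, hfr⟩ : ∃ (E : Type) (_ : Field E) (_ : Fintype E) (_ : Algebra (ZMod p) E),
      Module.finrank (ZMod p) E = m :=
    ⟨GaloisField p m, inferInstance, Fintype.ofFinite _, inferInstance, GaloisField.finrank p (by omega)⟩
  have h1 := hcb m hm1 E hfr 0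
  rw [hall E] at h1
  have hcard : Fintype.card E = p ^ m := by
    rw [Module.card_eq_pow_finrank (K := ZMod p) (V := E), ZMod.card, hfr]
  have h2 := card_GP E hd
  rw [hcard] at h2
  have h3 : p * p ^ m ≤ p * (GP E den).card + p * den.natDegree := by
    rw [← mul_add]
    exact Nat.mul_le_mul_left _ h2
  omega

theorem T_smul {F : Type} [Field F] (s : F) (num den : F[X]) {h : F[X]} (hh : h.Monic)
    (hc : IsCoprime h den) : T (C s * num) den h = s * T num den h := by
  apply (algebraMap F (AlgebraicClosure F)).injective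
  rw [T_aroots (K := AlgebraicClosure F) _ _ hh hc, map_mul,
    T_aroots (K := AlgebraicClosure F) _ _ hh hc, ← Multiset.sum_map_mul_left]
  congr 1
  apply Multiset.map_congr rfl
  intro z _
  rw [map_mul, aeval_C]
  ring

theorem psi_ne_one {ψ : AddChar (ZMod p) ℂ} (hψ : ψ.IsPrimitive) {x : ZMod p} (hx : x ≠ 0) :
    ψ x ≠ 1 := by
  intro h
  have h1 : AddChar.mulShift ψ x = 1 := by
    ext y
    rw [AddChar.mulShift_apply, AddChar.one_apply]
    have e : x * y = y.val • x := by
      rw [nsmul_eq_mul, ZMod.natCast_zmod_val]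
      ring
    rw [e, AddChar.map_nsmul_eq_pow, h, one_pow]
  exact hψ hx h1

/-- **Weil's bound** for rational functions, with the polynomial part separated. -/
theorem weil_core (P num den : (ZMod p)[X]) (hd : den.Monic) (hnd : num.degree < den.degree)
    (hP : (1 ≤ P.natDegree ∧ ((P.natDegree : ZMod p) ≠ 0)) ∨ P = 0)
    (hnr : ∀ y : RatFunc (AlgebraicClosure (ZMod p)),
      cH (AlgebraicClosure (ZMod p)) (RatFunc (AlgebraicClosure (ZMod p)))
        (den.map (algebraMap (ZMod p) (AlgebraicClosure (ZMod p)))) * (y ^ p - y) =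
      cH (AlgebraicClosure (ZMod p)) (RatFunc (AlgebraicClosure (ZMod p)))
        ((P * den + num).map (algebraMap (ZMod p) (AlgebraicClosure (ZMod p)))) → False)
    {ψ : AddChar (ZMod p) ℂ} (hψ : ψ.IsPrimitive) :
    ‖∑ x : ZMod p, if den.eval x = 0 then 0 else ψ (P.eval x + num.eval x / den.eval x)‖ ≤
      ((DD P den - 1 : ℕ) : ℝ) * Real.sqrt p := by
  classical
  have hpp : p.Prime := Fact.out
  have hcb := count_bound p P num den hd.ne_zero hnr
  have hq0 : 0 < Real.sqrt p := Real.sqrt_pos.2 (by exact_mod_cast hpp.pos)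
  set s := univ.filter (fun s : ZMod p => s ≠ 0) with hs
  have hs0 : ∀ t ∈ s, t ≠ 0 := by
    intro t ht
    rw [hs, mem_filter] at ht
    exact ht.2
  have hndt : ∀ t ∈ s, (C t * num).degree < den.degree := by
    intro t ht
    rw [degree_C_mul (hs0 t ht)]
    exact hnd
  have hNT : ∀ t ∈ s, NT ψ (C t * P) (C t * num) den := by
    intro t ht
    rcases hP with h | h
    · left
      rw [natDegree_C_mul (hs0 t ht)]
      exact h
    · right
      subst h
      obtain ⟨h, h1, h2, h3⟩ := exists_T_ne p num den hd.ne_zero hcb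
      refine ⟨by rw [mul_zero], h, h1, h2, ?_⟩
      rw [T_smul t num den h1 h2]
      exact psi_ne_one p hψ (mul_ne_zero (hs0 t ht) h3)
  set A : ℂ[X] := ∏ t ∈ s, LR ψ (C t * P) (C t * num) den with hA
  have hid : HID A (fun m => ∑ t ∈ s, TG (lamR ψ (C t * P) (C t * num) den) m) :=
    HID.prod s _ _ fun t hts => LR_HID hψ hd (hndt t hts) (hNT t hts)
  have hA0 : A.coeff 0 = 1 := by
    rw [hA, coeff_zero_prod]
    exact prod_eq_one fun t hts => LR_zero hψ hd (hndt t hts) (hNT t hts)
  have h1s : (1 : ZMod p) ∈ s := by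
    rw [hs, mem_filter]
    exact ⟨mem_univ _, one_ne_zero⟩
  have hNT1 : NT ψ P num den := by
    have := hNT 1 h1s
    rwa [C_1, one_mul, one_mul] at this
  obtain ⟨C1, hC1, hbound⟩ := sum_TG_bound p P num den hd.ne_zero hcb hψ
  have hroot : ∀ z : ℂ, (LR ψ P num den).eval z = 0 → 1 ≤ Real.sqrt p * ‖z‖ := by
    intro z hz
    apply root_norm A hA0 (fun m => ∑ t ∈ s, TG (lamR ψ (C t * P) (C t * num) den) m)
      (Real.sqrt p) C1 hq0 hC1
    · intro m hm
      exact hbound m hm
    · exact hid
    · rw [hA, eval_prod]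
      apply prod_eq_zero (i := (1 : ZMod p)) h1s
      rw [C_1, one_mul, one_mul]
      exact hz
  have h1 := coeff_one_le (LR ψ P num den) (LR_zero hψ hd hnd hNT1) _ hq0 hroot (DD P den - 1)
    (LR_natDegree hψ hd hnd hNT1)
  have h2 : (LR ψ P num den).coeff 1 =
      ∑ x : ZMod p, if den.eval x = 0 then 0 else ψ (P.eval x + num.eval x / den.eval x) := by
    have h3 := LR_HID hψ hd hnd hNT1 1
    rw [Icc_self, sum_singleton, Nat.sub_self, LR_zero hψ hd hnd hNT1, one_mul, Nat.cast_one,
      one_mul] at h3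
    rw [h3]
    have h4 := TR_eq_sum (F := ZMod p) (E := ZMod p) ψ P num den
    rw [Module.finrank_self] at h4
    rw [h4]
    apply sum_congr rfl
    intro x _
    simp
  rw [h2] at h1
  exact h1

end Sums

end Pool.Agent.Run7.h90.RW
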