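import Pool.Agent.Run7.h90.RW.Main

/-!
# Weil's bound for additive character sums of rational functions over prime fields, final form (helper90)
-/

set_option autoImplicit false
set_option linter.all false

open Polynomial Finset
open Pool.Agent.H341R2.Sharp Pool.Agent.H498R2.Kl
open Pool.Agent.Y807.WB

namespace Pool.Agent.Run7.h90.RW

lemma not_const_map {F K : Type} [Field F] [Field K] (j : F →+* K) {a b : F[X]} (hb : b.Monic)
    (hab : ∀ c : F, a ≠ C c * b) (c : K) : a.map j ≠ C c * b.map j := by
  intro h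
  have h1 := congrArg (fun q => q.coeff b.natDegree) h
  simp only [coeff_map, coeff_C_mul, hb.coeff_natDegree, map_one, mul_one] at h1
  apply hab (a.coeff b.natDegree)
  apply map_injective j j.injective
  rw [h, ← h1, Polynomial.map_mul, map_C]

section
variable (p : ℕ) [Fact p.Prime]

/-- monic denominator -/
theorem weil_monic (a b : (ZMod p)[X]) (hb : b.Monic) (D : ℕ) (ha : a.natDegree ≤ D)
    (hbD : b.natDegree ≤ D) (hD : D < p) (hab : ∀ c : ZMod p, a ≠ C c * b)
    {ψ : AddChar (ZMod p) ℂ} (hψ : ψ.IsPrimitive) :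
    ‖∑ x : ZMod p, if b.eval x = 0 then 0 else ψ (a.eval x / b.eval x)‖ ≤
      (2 * D : ℝ) * Real.sqrt p := by
  classical
  have hpp : p.Prime := Fact.out
  set Q := a /ₘ b with hQ
  set r := a %ₘ b with hr
  have hdiv : a = Q * b + r := by
    have := modByMonic_add_div a b
    rw [hQ, hr]
    linear_combination -this
  have hrd : r.degree < b.degree := degree_modByMonic_lt a hb
  have hev : ∀ x : ZMod p, b.eval x ≠ 0 →
      a.eval x / b.eval x = Q.eval x + r.eval x / b.eval x := by
    intro x hx
    have h1 : a.eval x = Q.eval x * b.eval x + r.eval x := by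
      conv_lhs => rw [hdiv]
      rw [eval_add, eval_mul]
    rw [h1]
    field_simp
  have hsq : 0 ≤ Real.sqrt p := Real.sqrt_nonneg _
  rcases Nat.eq_zero_or_pos Q.natDegree with h0 | h0
  · -- constant polynomial part
    obtain ⟨c, hc⟩ := natDegree_eq_zero.1 h0
    have hrc : ∀ c' : ZMod p, r ≠ C c' * b := by
      intro c' h
      apply hab (c + c')
      rw [hdiv, ← hc, h, C_add]
      ring
    have h1 := weil_core p 0 r b hb hrd (Or.inr rfl) (fun y hy => by
      refine no_rat p _ _ ?_ ?_ ?_ ?_ y hy
      · rw [zero_mul, zero_add, natDegree_map]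
        exact (natDegree_le_natDegree hrd.le).trans_lt (hbD.trans_lt hD)
      · rw [natDegree_map]
        exact hbD.trans_lt hD
      · exact (Polynomial.map_ne_zero_iff (algebraMap (ZMod p) (AlgebraicClosure (ZMod p))).injective).2
          hb.ne_zero
      · rw [zero_mul, zero_add]
        exact not_const_map _ hb hrc) hψ
    have h2 : ∑ x : ZMod p, (if b.eval x = 0 then (0 : ℂ) else ψ (a.eval x / b.eval x)) =
        ψ c * ∑ x : ZMod p, (if b.eval x = 0 then (0 : ℂ) else
          ψ ((0 : (ZMod p)[X]).eval x + r.eval x / b.eval x)) := by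
      rw [mul_sum]
      refine sum_congr rfl fun x _ => ?_
      by_cases hx : b.eval x = 0
      · rw [if_pos hx, if_pos hx, mul_zero]
      · rw [if_neg hx, if_neg hx, hev x hx, ← hc, eval_C, eval_zero, zero_add,
          AddChar.map_add_eq_mul]
    rw [h2, norm_mul, AddChar.norm_apply, one_mul]
    refine h1.trans (mul_le_mul_of_nonneg_right ?_ hsq)
    have h3 : DD (0 : (ZMod p)[X]) b - 1 ≤ 2 * D := by
      unfold DD
      rw [natDegree_zero]
      omega
    exact_mod_cast h3
  · -- nonconstant polynomial part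
    have hQd : Q.natDegree = a.natDegree - b.natDegree := natDegree_divByMonic a hb
    have hkp : Q.natDegree < p := by omega
    have hkF : (Q.natDegree : ZMod p) ≠ 0 := by
      rw [Ne, ZMod.natCast_eq_zero_iff]
      intro h
      exact absurd (Nat.le_of_dvd h0 h) (by omega)
    have h1 := weil_core p Q r b hb hrd (Or.inl ⟨h0, hkF⟩) (fun y hy => by
      refine no_rat p _ _ ?_ ?_ ?_ ?_ y hy
      · rw [← hdiv, natDegree_map]
        exact ha.trans_lt hD
      · rw [natDegree_map]
        exact hbD.trans_lt hD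
      · exact (Polynomial.map_ne_zero_iff (algebraMap (ZMod p) (AlgebraicClosure (ZMod p))).injective).2
          hb.ne_zero
      · rw [← hdiv]
        exact not_const_map _ hb hab) hψ
    have h2 : ∑ x : ZMod p, (if b.eval x = 0 then (0 : ℂ) else ψ (a.eval x / b.eval x)) =
        ∑ x : ZMod p, (if b.eval x = 0 then (0 : ℂ) else
          ψ (Q.eval x + r.eval x / b.eval x)) := by
      refine sum_congr rfl fun x _ => ?_
      by_cases hx : b.eval x = 0
      · rw [if_pos hx, if_pos hx]
      · rw [if_neg hx, if_neg hx, hev x hx]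
    rw [h2]
    refine h1.trans (mul_le_mul_of_nonneg_right ?_ hsq)
    have h3 : DD Q b - 1 ≤ 2 * D := by
      unfold DD
      omega
    exact_mod_cast h3

/-- **Weil's bound for rational functions over prime fields**: if `a / b` is not constant and the
degrees of `a` and `b` are at most `D < p` then the sum of `ψ (a x / b x)` over the residues `x`
which are not zeros of `b` is at most `2 D √p`. -/
theorem weil_rat (a b : (ZMod p)[X]) (hb : b ≠ 0) (D : ℕ) (ha : a.natDegree ≤ D)
    (hbD : b.natDegree ≤ D) (hD : D < p) (hab : ∀ c : ZMod p, a ≠ C c * b)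
    {ψ : AddChar (ZMod p) ℂ} (hψ : ψ.IsPrimitive) :
    ‖∑ x : ZMod p, if b.eval x = 0 then 0 else ψ (a.eval x / b.eval x)‖ ≤
      (2 * D : ℝ) * Real.sqrt p := by
  classical
  set l := b.leadingCoeff with hl
  have hl0 : l ≠ 0 := leadingCoeff_ne_zero.2 hb
  have hli : l⁻¹ ≠ 0 := inv_ne_zero hl0
  have hb' : (C l⁻¹ * b).Monic := by
    rw [mul_comm]
    exact monic_mul_leadingCoeff_inv hb
  have h1 := weil_monic p (C l⁻¹ * a) (C l⁻¹ * b) hb' D
    ((natDegree_C_mul_le _ _).trans ha) ((natDegree_C_mul_le _ _).trans hbD) hD (by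
      intro c h
      apply hab c
      have : C l⁻¹ * a = C l⁻¹ * (C c * b) := by
        rw [h]
        ring
      exact mul_left_cancel₀ (by rwa [Ne, C_eq_zero]) this) hψ
  have h2 : ∑ x : ZMod p, (if b.eval x = 0 then (0 : ℂ) else ψ (a.eval x / b.eval x)) =
      ∑ x : ZMod p, (if (C l⁻¹ * b).eval x = 0 then (0 : ℂ) else
        ψ ((C l⁻¹ * a).eval x / (C l⁻¹ * b).eval x)) := by
    refine sum_congr rfl fun x _ => ?_
    rw [eval_mul, eval_mul, eval_C]
    by_cases hx : b.eval x = 0
    · rw [if_pos hx, if_pos (by rw [hx, mul_zero])]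
    · rw [if_neg hx, if_neg (mul_ne_zero hli hx), mul_div_mul_left _ _ hli]
  rw [h2]
  exact h1

end

end Pool.Agent.Run7.h90.RW
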